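import Pool.Agent.Lib.MP_385b3e_gt.Top1

section

set_option autoImplicit false

namespace Pool.Agent.Lib.MP_385b3e_gt

open Set Metric Filter Topology

variable {X : Type*} [MetricSpace X] [CompactSpace X]

/-- Tubes. -/
structure Tube (N : ℕ) (c : ℕ → Set X) (η : ℝ) : Prop where
  op : ∀ i, IsOpen (c i)
  di : ∀ i, diam (c i) < η
  zero : c 0 = ∅
  big : ∀ i, N < i → c i = ∅
  disj : ∀ i j, i + 1 < j → Disjoint (c i) (c j)
  cl : ∀ i, 1 < i → i < N → closure (c i) ⊆ ⋃ j, c j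

theorem interval_lemma {B : Set X} (hB : IsPreconnected B) {w : ℕ → Set X}
    (ho : ∀ i, IsOpen (w i)) (hd : ∀ i j, i + 1 < j → Disjoint (w i) (w j)) (hc : B ⊆ ⋃ i, w i)
    {i j k : ℕ} (hik : i < k) (hkj : k < j) (hi : (w i ∩ B).Nonempty) (hj : (w j ∩ B).Nonempty) :
    (w k ∩ B).Nonempty := by
  by_contra hk
  rw [not_nonempty_iff_eq_empty] at hk
  have hU : IsOpen (⋃ l ∈ {l | l < k}, w l) := isOpen_biUnion fun l _ => ho l
  have hV : IsOpen (⋃ l ∈ {l | k < l}, w l) := isOpen_biUnion fun l _ => ho l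
  obtain ⟨x, -, hx1, hx2⟩ := hB _ _ hU hV (fun x hx => by
    obtain ⟨l, hl⟩ := mem_iUnion.1 (hc hx)
    rcases lt_trichotomy l k with h | h | h
    · exact Or.inl (mem_biUnion h hl)
    · subst h
      have h' : x ∈ w l ∩ B := ⟨hl, hx⟩
      rw [hk] at h'
      exact absurd h' (notMem_empty x)
    · exact Or.inr (mem_biUnion h hl)) (by
    obtain ⟨x, h1, h2⟩ := hi
    exact ⟨x, h2, mem_biUnion hik h1⟩) (by
    obtain ⟨x, h1, h2⟩ := hj
    exact ⟨x, h2, mem_biUnion hkj h1⟩)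
  obtain ⟨l, hl, hxl⟩ := mem_iUnion₂.1 hx1
  obtain ⟨l', hl', hxl'⟩ := mem_iUnion₂.1 hx2
  have h1 : l < k := hl
  have h2 : k < l' := hl'
  exact Set.disjoint_left.1 (hd l l' (by omega)) hxl hxl'

theorem exists_tube [ConnectedSpace X] (hX : ChainHyp X) {B : Set X} (hB : IsClosed B)
    (hBc : IsConnected B) (hBu : B ≠ univ) {η : ℝ} (hη : 0 < η) :
    ∃ (N : ℕ) (c : ℕ → Set X), Tube N c η ∧ B ⊆ ⋃ i, c i ∧ 1 ≤ N ∧
      ∀ i, 1 ≤ i → i ≤ N → (c i ∩ B).Nonempty := by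
  classical
  obtain ⟨x₀, hx₀⟩ := (ne_univ_iff_exists_notMem B).1 hBu
  obtain ⟨r, hr, hrK⟩ := hB.isCompact.exists_cthickening_subset_open
    (isOpen_compl_singleton (x := x₀)) (subset_compl_singleton_iff.2 hx₀)
  have hF : IsClosed (cthickening r B) := isClosed_cthickening
  have hFu : cthickening r B ≠ univ := fun h => (hrK (h ▸ mem_univ x₀ : x₀ ∈ cthickening r B)) rfl
  obtain ⟨b, hb⟩ := hBc.1
  have hbF : b ∈ cthickening r B := self_subset_cthickening B hb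
  have hBC : B ⊆ connectedComponentIn (cthickening r B) b :=
    hBc.2.subset_connectedComponentIn hb (self_subset_cthickening B)
  have hCu : connectedComponentIn (cthickening r B) b ≠ univ :=
    fun h => hFu (univ_subset_iff.1 (h ▸ connectedComponentIn_subset _ b))
  obtain ⟨n, u, u1, u2, u3, u4, u5⟩ := wc_of_chainHyp hX (isClosed_compIn hF b)
    (isConnected_connectedComponentIn_iff.2 hbF) hCu (lt_min hη hr)
  obtain ⟨Q, q1, q2, q3, q4, q5, q6⟩ := exists_clopen_nbhd hF hbF (isOpen_iUnion u1) u4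
  -- links meeting `B`
  have hint : ∀ i j k, i ≤ k → k ≤ j → (u i ∩ B).Nonempty → (u j ∩ B).Nonempty →
      (u k ∩ B).Nonempty := by
    intro i j k h1 h2 h3 h4
    rcases eq_or_lt_of_le h1 with h1 | h1
    · exact h1 ▸ h3
    rcases eq_or_lt_of_le h2 with h2 | h2
    · exact h2 ▸ h4
    exact interval_lemma hBc.2 u1 u5 (hBC.trans u4) h1 h2 h3 h4
  have hne : ∃ i, (u i ∩ B).Nonempty := by
    obtain ⟨i, hi⟩ := mem_iUnion.1 (u4 (hBC hb))
    exact ⟨i, b, hi, hb⟩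
  have hlt : ∀ i, (u i ∩ B).Nonempty → i < n := by
    intro i hi
    by_contra h
    rw [u3 i (not_lt.1 h), empty_inter] at hi
    exact not_nonempty_empty hi
  obtain ⟨i₀, hi₀, hi₀min⟩ : ∃ i₀, (u i₀ ∩ B).Nonempty ∧ ∀ i, (u i ∩ B).Nonempty → i₀ ≤ i :=
    ⟨Nat.find hne, Nat.find_spec hne, fun i hi => Nat.find_min' hne hi⟩
  obtain ⟨i₁, hi₁, hi₁max⟩ : ∃ i₁, (u i₁ ∩ B).Nonempty ∧ ∀ i, (u i ∩ B).Nonempty → i ≤ i₁ := by
    obtain ⟨i₁, h1, h2⟩ := Set.exists_max_image {i | (u i ∩ B).Nonempty} id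
      ((finite_lt_nat n).subset fun i hi => hlt i hi) hne
    exact ⟨i₁, h1, h2⟩
  have h01 : i₀ ≤ i₁ := hi₀min _ hi₁
  have hthick : ∀ i, (u i ∩ B).Nonempty → u i ⊆ thickening r B := by
    rintro i ⟨y, hy, hyB⟩ x hx
    rw [mem_thickening_iff]
    exact ⟨y, hyB, (dist_le_diam hx hy).trans_lt ((u2 i).trans_le (min_le_right _ _))⟩
  have hopen : ∀ i, (u i ∩ B).Nonempty → IsOpen (u i ∩ Q) := by
    intro i hi
    have : u i ∩ Q = u i ∩ (cthickening r B \ Q)ᶜ := by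
      ext z
      constructor
      · rintro ⟨h1, h2⟩
        exact ⟨h1, fun h => h.2 h2⟩
      · rintro ⟨h1, h2⟩
        refine ⟨h1, ?_⟩
        by_contra hz
        exact h2 ⟨thickening_subset_cthickening r B (hthick i hi h1), hz⟩
    rw [this]
    exact (u1 i).inter q2.isOpen_compl
  let c : ℕ → Set X := fun k => if 1 ≤ k ∧ k ≤ i₁ - i₀ + 1 then u (i₀ + k - 1) ∩ Q else ∅
  have hc1 : ∀ k, 1 ≤ k → k ≤ i₁ - i₀ + 1 → c k = u (i₀ + k - 1) ∩ Q := by
    intro k h1 h2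
    exact if_pos ⟨h1, h2⟩
  have hc0 : ∀ k, ¬ (1 ≤ k ∧ k ≤ i₁ - i₀ + 1) → c k = ∅ := fun k h => if_neg h
  have hcB : ∀ k, 1 ≤ k → k ≤ i₁ - i₀ + 1 → (u (i₀ + k - 1) ∩ B).Nonempty := by
    intro k h1 h2
    exact hint i₀ i₁ _ (by omega) (by omega) hi₀ hi₁
  have hcov : ∀ l, (u l ∩ B).Nonempty → u l ∩ Q ⊆ ⋃ i, c i := by
    intro l hl x hx
    have h1 := hi₀min l hl
    have h2 := hi₁max l hl
    refine mem_iUnion.2 ⟨l - i₀ + 1, ?_⟩
    rw [hc1 _ (by omega) (by omega), show i₀ + (l - i₀ + 1) - 1 = l by omega]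
    exact hx
  refine ⟨i₁ - i₀ + 1, c, ⟨fun k => ?_, fun k => ?_, ?_, fun k hk => ?_, fun j k hjk => ?_,
    fun k hk1 hkN x hx => ?_⟩, fun x hx => ?_, by omega, fun k h1 h2 => ?_⟩
  · by_cases h : 1 ≤ k ∧ k ≤ i₁ - i₀ + 1
    · rw [hc1 k h.1 h.2]
      exact hopen _ (hcB k h.1 h.2)
    · rw [hc0 k h]
      exact isOpen_empty
  · by_cases h : 1 ≤ k ∧ k ≤ i₁ - i₀ + 1
    · rw [hc1 k h.1 h.2]
      exact (diam_mono' inter_subset_left).trans_lt ((u2 _).trans_le (min_le_left _ _))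
    · rw [hc0 k h]
      simpa using hη
  · exact hc0 0 (by omega)
  · exact hc0 k (by omega)
  · by_cases h : 1 ≤ j ∧ j ≤ i₁ - i₀ + 1
    · by_cases h' : 1 ≤ k ∧ k ≤ i₁ - i₀ + 1
      · rw [hc1 j h.1 h.2, hc1 k h'.1 h'.2]
        exact (u5 _ _ (by omega)).mono inter_subset_left inter_subset_left
      · rw [hc0 k h']
        exact disjoint_empty _
    · rw [hc0 j h]
      exact empty_disjoint _
  · rw [hc1 k (by omega) (by omega)] at hx
    have hxQ : x ∈ Q := q1.closure_subset_iff.2 inter_subset_right hx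
    obtain ⟨l, hl⟩ := mem_iUnion.1 (q4 hxQ)
    obtain ⟨z, hz1, hz2, -⟩ := _root_.mem_closure_iff.1 hx (u l) (u1 l) hl
    have h1 : l ≤ i₀ + k - 1 + 1 := by
      by_contra h
      exact Set.disjoint_left.1 (u5 (i₀ + k - 1) l (by omega)) hz2 hz1
    have h2 : i₀ + k - 1 ≤ l + 1 := by
      by_contra h
      exact Set.disjoint_left.1 (u5 l (i₀ + k - 1) (by omega)) hz1 hz2
    exact hcov l (hint i₀ i₁ l (by omega) (by omega) hi₀ hi₁) ⟨hl, hxQ⟩
  · obtain ⟨l, hl⟩ := mem_iUnion.1 (u4 (hBC hx))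
    exact hcov l ⟨x, hl, hx⟩ ⟨hl, q6 (hBC hx)⟩
  · rw [hc1 k h1 h2]
    obtain ⟨x, hx, hxB⟩ := hcB k h1 h2
    exact ⟨x, ⟨hx, q6 (hBC hxB)⟩, hxB⟩

/-- Small sets are either inside a link or miss all inner links. -/
theorem Tube.exists_loc {N : ℕ} {c : ℕ → Set X} {η : ℝ} (T : Tube N c η) :
    ∃ δ > 0, ∀ u : Set X, diam u < δ → (∃ j, u ⊆ c j) ∨ ∀ i, 1 < i → i < N → Disjoint u (c i) := by
  have hE : IsClosed (⋃ i ∈ {i | 1 < i ∧ i < N}, closure (c i)) := by
    refine Set.Finite.isClosed_biUnion ((finite_lt_nat N).subset fun i hi => hi.2)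
      fun i _ => isClosed_closure
  obtain ⟨δ, hδ, h⟩ := lebesgue_number_lemma_of_metric hE.isCompact T.op (fun x hx => by
    obtain ⟨i, hi, hx⟩ := mem_iUnion₂.1 hx
    exact T.cl i hi.1 hi.2 hx)
  refine ⟨δ, hδ, fun u hu => ?_⟩
  by_cases hcase : ∀ i, 1 < i → i < N → Disjoint u (c i)
  · exact Or.inr hcase
  · left
    push Not at hcase
    obtain ⟨i, h1, h2, h3⟩ := hcase
    obtain ⟨x, hxu, hxi⟩ := Set.not_disjoint_iff.1 h3
    obtain ⟨j, hj⟩ := h x (mem_biUnion (show 1 < i ∧ i < N from ⟨h1, h2⟩) (subset_closure hxi))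
    refine ⟨j, fun y hy => hj ?_⟩
    rw [mem_ball]
    exact (dist_le_diam hy hxu).trans_lt hu

/-- The frozen tree-likeness hypothesis. -/
def TreeHyp (X : Type*) [MetricSpace X] : Prop :=
  ∀ ε : ℝ, ε > 0 → ∃ (n : ℕ) (U : Fin n → Set X),
        (∀ i, IsOpen (U i)) ∧ (∀ i, Metric.diam (U i) < ε) ∧ (⋃ i, U i) = Set.univ ∧
        (∀ i j k, i ≠ j → j ≠ k → i ≠ k → U i ∩ U j ∩ U k = ∅) ∧
        (SimpleGraph.fromRel (fun i j => (U i ∩ U j).Nonempty)).IsTree

theorem tree_cover [Nonempty X] (hT : TreeHyp X) {ε : ℝ} (hε : 0 < ε) :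
    ∃ (n : ℕ) (U : Fin n → Set X) (G : SimpleGraph (Fin n)), (∀ i, IsOpen (U i)) ∧
      (∀ i, diam (U i) < ε) ∧ (⋃ i, U i) = univ ∧ G.IsTree ∧
      (∀ i j, G.Adj i j ↔ i ≠ j ∧ (U i ∩ U j).Nonempty) ∧ ∀ i, (U i).Nonempty := by
  obtain ⟨n, U, h1, h2, h3, -, h5⟩ := hT ε hε
  have hadj : ∀ i j, (SimpleGraph.fromRel (fun i j => (U i ∩ U j).Nonempty)).Adj i j ↔
      i ≠ j ∧ (U i ∩ U j).Nonempty := by
    intro i j
    rw [SimpleGraph.fromRel_adj, inter_comm (U j), or_self]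
  refine ⟨n, U, _, h1, h2, h3, h5, hadj, fun i => ?_⟩
  by_contra hi
  rw [not_nonempty_iff_eq_empty] at hi
  -- an empty link is isolated; so it is the only one
  obtain ⟨x⟩ := ‹Nonempty X›
  obtain ⟨j, hj⟩ := mem_iUnion.1 (h3 ▸ mem_univ x : x ∈ ⋃ i, U i)
  have hij : i ≠ j := by
    rintro rfl
    rw [hi] at hj
    exact hj
  obtain ⟨p⟩ := h5.connected.preconnected i j
  cases p with
  | nil => exact hij rfl
  | cons h p =>
    have := ((hadj _ _).1 h).2
    rw [hi, empty_inter] at this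
    exact not_nonempty_empty this

end Pool.Agent.Lib.MP_385b3e_gt
end

section

set_option autoImplicit false

namespace Pool.Agent.Lib.MP_385b3e_gt

open Set Metric Filter Topology

variable {X : Type*} [MetricSpace X] [CompactSpace X]

/-- `δ`-connectedness in partition form. -/
def DC (δ : ℝ) (Z : Set X) : Prop :=
  ∀ S ⊆ Z, S.Nonempty → (Z \ S).Nonempty → ∃ s ∈ S, ∃ t ∈ Z \ S, dist s t < δ

/-- Limit of a sequence of sets along an ultrafilter. -/
def ULim (F : Ultrafilter ℕ) (Z : ℕ → Set X) : Set X :=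
  {x | ∀ r > 0, ∀ᶠ k in (F : Filter ℕ), (ball x r ∩ Z k).Nonempty}

variable {F : Ultrafilter ℕ}

theorem ULim.isClosed (Z : ℕ → Set X) : IsClosed (ULim F Z) := by
  rw [← closure_subset_iff_isClosed]
  intro x hx r hr
  obtain ⟨y, hy, hxy⟩ := Metric.mem_closure_iff.1 hx (r / 2) (half_pos hr)
  filter_upwards [hy (r / 2) (half_pos hr)] with k hk
  refine hk.mono (inter_subset_inter_left _ ?_)
  refine ball_subset_ball' ?_
  rw [dist_comm]
  linarith

theorem ULim.mono {Z Z' : ℕ → Set X} (h : ∀ k, Z k ⊆ Z' k) : ULim F Z ⊆ ULim F Z' := by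
  intro x hx r hr
  filter_upwards [hx r hr] with k hk
  exact hk.mono (inter_subset_inter_right _ (h k))

theorem ULim.notMem {Z : ℕ → Set X} {x : X} (h : x ∉ ULim F Z) :
    ∃ r > 0, ∀ᶠ k in (F : Filter ℕ), ball x r ∩ Z k = ∅ := by
  by_contra hcon
  refine h fun r hr => ?_
  by_contra h'
  refine hcon ⟨r, hr, ?_⟩
  rw [← Ultrafilter.eventually_not] at h'
  filter_upwards [h'] with k hk
  rwa [not_nonempty_iff_eq_empty] at hk

theorem ULim.union_subset {Z Z₁ Z₂ : ℕ → Set X} (h : ∀ k, Z k ⊆ Z₁ k ∪ Z₂ k) :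
    ULim F Z ⊆ ULim F Z₁ ∪ ULim F Z₂ := by
  intro x hx
  by_contra hcon
  rw [mem_union, not_or] at hcon
  obtain ⟨r₁, hr₁, h1⟩ := ULim.notMem hcon.1
  obtain ⟨r₂, hr₂, h2⟩ := ULim.notMem hcon.2
  have h3 := hx (min r₁ r₂) (lt_min hr₁ hr₂)
  obtain ⟨k, ⟨hk1, hk2⟩, z, hz1, hz2⟩ := ((h1.and h2).and h3).exists
  rcases h k hz2 with hz | hz
  · exact (eq_empty_iff_forall_notMem.1 hk1) z ⟨ball_subset_ball (min_le_left _ _) hz1, hz⟩
  · exact (eq_empty_iff_forall_notMem.1 hk2) z ⟨ball_subset_ball (min_le_right _ _) hz1, hz⟩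

theorem ULim.of_dense {Z : ℕ → Set X} {a : ℕ → ℝ} (ha : Tendsto a F (𝓝 0))
    (h : ∀ k x, ∃ y ∈ Z k, dist x y < a k) : ULim F Z = univ := by
  refine eq_univ_of_forall fun x r hr => ?_
  filter_upwards [ha.eventually_lt_const hr] with k hk
  obtain ⟨y, hy, hxy⟩ := h k x
  refine ⟨y, ?_, hy⟩
  rw [mem_ball, dist_comm]
  exact hxy.trans hk

theorem ULim.subset_of_near {Z : ℕ → Set X} {a : ℕ → ℝ} (ha : Tendsto a F (𝓝 0)) {P : Set X}
    (hP : IsClosed P) (h : ∀ k, ∀ z ∈ Z k, ∃ p ∈ P, dist z p < a k) : ULim F Z ⊆ P := by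
  intro x hx
  rw [← hP.closure_eq, Metric.mem_closure_iff]
  intro r hr
  obtain ⟨k, hk1, z, hz1, hz2⟩ := ((ha.eventually_lt_const (half_pos hr)).and
    (hx (r / 2) (half_pos hr))).exists
  obtain ⟨p, hp, hzp⟩ := h k z hz2
  refine ⟨p, hp, ?_⟩
  rw [mem_ball, dist_comm] at hz1
  have := dist_triangle x z p
  linarith

theorem ULim.const_subset {Z : ℕ → Set X} {P : Set X} (h : ∀ k, P ⊆ Z k) : P ⊆ ULim F Z := by
  intro x hx r hr
  exact Eventually.of_forall fun k => ⟨x, mem_ball_self hr, h k hx⟩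

theorem exists_ulim (F : Ultrafilter ℕ) (z : ℕ → X) :
    ∃ x, ∀ r > 0, ∀ᶠ k in (F : Filter ℕ), z k ∈ ball x r := by
  refine ⟨(F.map z).lim, fun r hr => ?_⟩
  have h := (F.map z).le_nhds_lim
  exact h (ball_mem_nhds _ hr)

theorem ULim.preconnected {Z : ℕ → Set X} {a : ℕ → ℝ} (ha : Tendsto a F (𝓝 0))
    (h : ∀ k, DC (a k) (Z k)) : IsPreconnected (ULim F Z) := by
  classical
  rw [isPreconnected_closed_iff]
  intro t t' ht ht' hsub hn hn'
  by_contra hcon
  rw [not_nonempty_iff_eq_empty] at hcon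
  have hK1 : IsCompact (ULim F Z ∩ t) := ((ULim.isClosed Z).inter ht).isCompact
  have hK2 : IsClosed (ULim F Z ∩ t') := (ULim.isClosed Z).inter ht'
  have hd : Disjoint (ULim F Z ∩ t) (ULim F Z ∩ t') := by
    rw [Set.disjoint_left]
    rintro x ⟨h1, h2⟩ ⟨-, h3⟩
    exact (eq_empty_iff_forall_notMem.1 hcon) x ⟨h1, h2, h3⟩
  obtain ⟨δ, hδ, hdis⟩ := hd.exists_thickenings hK1 hK2
  have hρ : 0 < δ / 2 := half_pos hδ
  -- eventually `Z k` is near the limit
  have hnear : ∀ᶠ k in (F : Filter ℕ), Z k ⊆ thickening (δ / 2) (ULim F Z) := by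
    by_contra hc
    rw [← Ultrafilter.eventually_not] at hc
    obtain ⟨x₀, -⟩ := hn
    let z : ℕ → X := fun k => if h : ∃ y ∈ Z k, y ∉ thickening (δ / 2) (ULim F Z) then h.choose
      else x₀
    have hz : ∀ᶠ k in (F : Filter ℕ), z k ∈ Z k ∧ z k ∉ thickening (δ / 2) (ULim F Z) := by
      filter_upwards [hc] with k hk
      have h : ∃ y ∈ Z k, y ∉ thickening (δ / 2) (ULim F Z) := not_subset.1 hk
      have e : z k = h.choose := dif_pos h
      rw [e]
      exact h.choose_spec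
    obtain ⟨x, hx⟩ := exists_ulim F z
    have hxU : x ∈ ULim F Z := by
      intro r hr
      filter_upwards [hx r hr, hz] with k h1 h2
      exact ⟨z k, h1, h2.1⟩
    obtain ⟨k, h1, h2⟩ := ((hx _ hρ).and hz).exists
    refine h2.2 (mem_thickening_iff.2 ⟨x, hxU, ?_⟩)
    exact mem_ball.1 h1
  obtain ⟨x₁, hx₁, hx₁t⟩ := hn
  obtain ⟨x₂, hx₂, hx₂t⟩ := hn'
  obtain ⟨k, ⟨⟨hk1, hk2⟩, hk3⟩, hk4⟩ := (((hnear.and (hx₁ _ hρ)).and (hx₂ _ hρ)).and
    (ha.eventually_lt_const hρ)).exists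
  -- separation
  have hsep : ∀ s ∈ thickening (δ / 2) (ULim F Z ∩ t),
      ∀ s' ∈ thickening (δ / 2) (ULim F Z ∩ t'), δ / 2 ≤ dist s s' := by
    intro s hs s' hs'
    by_contra hlt
    rw [not_le] at hlt
    obtain ⟨p, hp, hsp⟩ := mem_thickening_iff.1 hs
    have h5 : s' ∈ thickening δ (ULim F Z ∩ t) := by
      refine mem_thickening_iff.2 ⟨p, hp, ?_⟩
      have := dist_triangle s' s p
      rw [dist_comm s' s] at this
      linarith
    exact Set.disjoint_left.1 hdis h5 (thickening_mono (by linarith) _ hs')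
  have hsplit : ∀ z ∈ Z k, z ∈ thickening (δ / 2) (ULim F Z ∩ t) ∨
      z ∈ thickening (δ / 2) (ULim F Z ∩ t') := by
    intro z hz
    obtain ⟨p, hp, hzp⟩ := mem_thickening_iff.1 (hk1 hz)
    rcases hsub hp with h' | h'
    · exact Or.inl (mem_thickening_iff.2 ⟨p, ⟨hp, h'⟩, hzp⟩)
    · exact Or.inr (mem_thickening_iff.2 ⟨p, ⟨hp, h'⟩, hzp⟩)
  obtain ⟨y₁, hy₁, hy₁Z⟩ := hk2
  obtain ⟨y₂, hy₂, hy₂Z⟩ := hk3
  have hy₁' : y₁ ∈ thickening (δ / 2) (ULim F Z ∩ t) :=
    mem_thickening_iff.2 ⟨x₁, ⟨hx₁, hx₁t⟩, mem_ball.1 hy₁⟩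
  have hy₂' : y₂ ∈ thickening (δ / 2) (ULim F Z ∩ t') :=
    mem_thickening_iff.2 ⟨x₂, ⟨hx₂, hx₂t⟩, mem_ball.1 hy₂⟩
  have hnot : ∀ z, z ∈ thickening (δ / 2) (ULim F Z ∩ t') →
      z ∉ thickening (δ / 2) (ULim F Z ∩ t) := by
    intro z hz hz'
    have := hsep z hz' z hz
    rw [dist_self] at this
    linarith
  obtain ⟨s, hs, s', hs', hss'⟩ := h k (Z k ∩ thickening (δ / 2) (ULim F Z ∩ t))
    inter_subset_left ⟨y₁, hy₁Z, hy₁'⟩ ⟨y₂, hy₂Z, fun h' => hnot y₂ hy₂' h'.2⟩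
  have hs'2 : s' ∈ thickening (δ / 2) (ULim F Z ∩ t') := by
    rcases hsplit s' hs'.1 with h' | h'
    · exact absurd ⟨hs'.1, h'⟩ hs'.2
    · exact h'
  have := hsep s hs.2 s' hs'2
  linarith

/-- Consecutive links of a tube along a connected set meet. -/
theorem Tube.consec {N : ℕ} {c : ℕ → Set X} {η : ℝ} (T : Tube N c η) {B : Set X}
    (hB : IsPreconnected B) (hBsub : B ⊆ ⋃ i, c i)
    (hcB : ∀ i, 1 ≤ i → i ≤ N → (c i ∩ B).Nonempty) {i : ℕ} (h1 : 1 ≤ i) (h2 : i + 1 ≤ N) :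
    (c i ∩ c (i + 1) ∩ B).Nonempty := by
  obtain ⟨x, hxB, hx1, hx2⟩ := hB (⋃ l ∈ {l | l ≤ i}, c l) (⋃ l ∈ {l | i < l}, c l)
    (isOpen_biUnion fun l _ => T.op l) (isOpen_biUnion fun l _ => T.op l) (fun x hx => by
      obtain ⟨l, hl⟩ := mem_iUnion.1 (hBsub hx)
      rcases le_or_gt l i with h | h
      · exact Or.inl (mem_biUnion h hl)
      · exact Or.inr (mem_biUnion h hl)) (by
      obtain ⟨x, h3, h4⟩ := hcB i h1 (by omega)
      exact ⟨x, h4, mem_biUnion (le_refl i : i ∈ {l | l ≤ i}) h3⟩) (by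
      obtain ⟨x, h3, h4⟩ := hcB (i + 1) (by omega) h2
      exact ⟨x, h4, mem_biUnion (Nat.lt_succ_self i : i + 1 ∈ {l | i < l}) h3⟩)
  obtain ⟨l, hl, hxl⟩ := mem_iUnion₂.1 hx1
  obtain ⟨l', hl', hxl'⟩ := mem_iUnion₂.1 hx2
  have h3 : l ≤ i := hl
  have h4 : i < l' := hl'
  have h5 : ¬ l + 1 < l' := fun h => Set.disjoint_left.1 (T.disj l l' h) hxl hxl'
  have h6 : l = i := by omega
  have h7 : l' = i + 1 := by omega
  rw [h6] at hxl
  rw [h7] at hxl'
  exact ⟨x, ⟨hxl, hxl'⟩, hxB⟩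

theorem Tube.index {N : ℕ} {c : ℕ → Set X} {η : ℝ} (T : Tube N c η) {i : ℕ} {x : X}
    (hx : x ∈ c i) : 1 ≤ i ∧ i ≤ N := by
  refine ⟨?_, ?_⟩
  · by_contra h'
    have h0 : i = 0 := by omega
    rw [h0, T.zero] at hx
    exact hx
  · by_contra h'
    rw [T.big i (by omega)] at hx
    exact hx

/-- Pieces of a connected set in an interval of links are `η`-connected. -/
theorem Tube.dc {N : ℕ} {c : ℕ → Set X} {η : ℝ} (T : Tube N c η) {B : Set X}
    (hB : IsPreconnected B) (hBsub : B ⊆ ⋃ i, c i)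
    (hcB : ∀ i, 1 ≤ i → i ≤ N → (c i ∩ B).Nonempty) (a b : ℕ) :
    DC η {x | x ∈ B ∧ ∃ i, a ≤ i ∧ i ≤ b ∧ x ∈ c i} := by
  intro S hS hSne hSc
  by_contra hcon
  push Not at hcon
  have hlink : ∀ i, a ≤ i → i ≤ b → ∀ x ∈ c i ∩ B, ∀ y ∈ c i ∩ B, x ∈ S → y ∈ S := by
    intro i h1 h2 x hx y hy hxS
    by_contra hyS
    have h3 := hcon x hxS y ⟨⟨hy.2, i, h1, h2, hy.1⟩, hyS⟩
    have h4 := dist_le_diam hx.1 hy.1
    have h5 := T.di i
    linarith
  have hstep : ∀ i j, i ≤ j → a ≤ i → j ≤ b → 1 ≤ i → j ≤ N →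
      ((∀ x ∈ c i ∩ B, x ∈ S) ↔ (∀ x ∈ c j ∩ B, x ∈ S)) := by
    intro i j hij
    induction j, hij using Nat.le_induction with
    | base => exact fun _ _ _ _ => Iff.rfl
    | succ j hij ih =>
      intro h1 h2 h3 h4
      rw [ih h1 (by omega) h3 (by omega)]
      obtain ⟨z, ⟨hz1, hz2⟩, hzB⟩ := T.consec hB hBsub hcB (i := j) (by omega) h4
      constructor
      · intro h x hx
        exact hlink (j + 1) (by omega) h2 z ⟨hz2, hzB⟩ x hx (h z ⟨hz1, hzB⟩)
      · intro h x hx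
        exact hlink j (by omega) (by omega) z ⟨hz1, hzB⟩ x hx (h z ⟨hz2, hzB⟩)
  obtain ⟨s, hs⟩ := hSne
  obtain ⟨t, ht, htS⟩ := hSc
  obtain ⟨hsB, i, h1, h2, hsi⟩ := hS hs
  obtain ⟨htB, j, h3, h4, htj⟩ := ht
  have hi := T.index hsi
  have hj := T.index htj
  have hPi : ∀ x ∈ c i ∩ B, x ∈ S := fun x hx => hlink i h1 h2 s ⟨hsi, hsB⟩ x hx hs
  have hPj : ∀ x ∈ c j ∩ B, x ∈ S := by
    rcases le_total i j with h | h
    · exact (hstep i j h h1 h4 hi.1 hj.2).1 hPi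
    · exact (hstep j i h h3 h2 hj.1 hi.2).2 hPi
  exact htS (hPj t ⟨htj, htB⟩)

theorem Tube.dist_lt {N : ℕ} {c : ℕ → Set X} {η : ℝ} (T : Tube N c η) {B : Set X}
    (hB : IsPreconnected B) (hBsub : B ⊆ ⋃ i, c i)
    (hcB : ∀ i, 1 ≤ i → i ≤ N → (c i ∩ B).Nonempty) {i : ℕ} {x : X} (hx : x ∈ c i) (l : ℕ) :
    ∀ y ∈ c (i + l), dist x y < (l + 1) * η := by
  induction l with
  | zero =>
    intro y hy
    have h1 := dist_le_diam hx hy
    have h2 := T.di i
    simp only [CharP.cast_eq_zero, zero_add, one_mul]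
    exact h1.trans_lt h2
  | succ l ih =>
    intro y hy
    have hi := T.index hx
    have hj := T.index hy
    obtain ⟨z, ⟨hz1, hz2⟩, -⟩ := T.consec hB hBsub hcB (i := i + l) (by omega) (by omega)
    have h1 := ih z hz1
    have h2 := dist_le_diam hz2 (show y ∈ c (i + l + 1) from hy)
    have h3 := T.di (i + l + 1)
    have h4 := dist_triangle x z y
    push_cast
    nlinarith

/-- Existence of a tube with two dense sides in an indecomposable space. -/
theorem exists_twosided [ConnectedSpace X] [Nontrivial X] (hX : ChainHyp X)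
    (hind : ∀ A B : Set X, IsClosed A → IsClosed B → IsPreconnected A → IsPreconnected B →
      A ∪ B = univ → A = univ ∨ B = univ) {ε : ℝ} (hε : 0 < ε) :
    ∃ (N m : ℕ) (c : ℕ → Set X), Tube N c ε ∧ 3 ≤ m ∧ m + 2 ≤ N ∧ (c m).Nonempty ∧
      (∀ x, ∃ j, 1 ≤ j ∧ j + 2 ≤ m ∧ ∃ y ∈ c j, dist x y < ε) ∧
      (∀ x, ∃ j, m + 2 ≤ j ∧ j ≤ N ∧ ∃ y ∈ c j, dist x y < ε) := by
  classical
  obtain ⟨x₀, x₁, hne⟩ := exists_pair_ne X
  obtain ⟨P₁, p1, p2, p3, -, p5⟩ := exists_dense (isClosed_singleton (x := x₀))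
    isConnected_singleton (fun h => hne.symm (h ▸ mem_univ x₁ : x₁ ∈ ({x₀} : Set X))) hε
  have hpos : ∀ k : ℕ, (0 : ℝ) < 1 / (k + 1) := fun k => by positivity
  choose P q1 q2 q3 q4 q5 using fun k : ℕ => exists_dense p1 p2 p3 (hpos k)
  choose N c T t1 t2 t3 using fun k : ℕ =>
    exists_tube hX (q1 k) (q2 k) (q3 k) (lt_min hε (hpos k))
  -- the links meeting `P₁`
  obtain ⟨b, hb⟩ := p2.1
  have hI : ∀ k, ∃ i j, i ≤ j ∧ 1 ≤ i ∧ j ≤ N k ∧ (∀ l, i ≤ l → l ≤ j → (c k l ∩ P₁).Nonempty) ∧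
      ∀ l, (c k l ∩ P₁).Nonempty → i ≤ l ∧ l ≤ j := by
    intro k
    have hlt : ∀ l, (c k l ∩ P₁).Nonempty → 1 ≤ l ∧ l ≤ N k := by
      rintro l ⟨x, hx, -⟩
      exact (T k).index hx
    have hne : {l | (c k l ∩ P₁).Nonempty}.Nonempty := by
      obtain ⟨l, hl⟩ := mem_iUnion.1 (t1 k (q4 k hb))
      exact ⟨l, b, hl, hb⟩
    have hfin : {l | (c k l ∩ P₁).Nonempty}.Finite :=
      (finite_le_nat (N k)).subset fun l hl => (hlt l hl).2
    obtain ⟨i, hi, himin⟩ := Set.exists_min_image _ id hfin hne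
    obtain ⟨j, hj, hjmax⟩ := Set.exists_max_image _ id hfin hne
    refine ⟨i, j, himin j hj, (hlt i hi).1, (hlt j hj).2, fun l h1 h2 => ?_,
      fun l hl => ⟨himin l hl, hjmax l hl⟩⟩
    rcases eq_or_lt_of_le h1 with h1 | h1
    · exact h1 ▸ hi
    rcases eq_or_lt_of_le h2 with h2 | h2
    · exact h2 ▸ hj
    exact interval_lemma p2.2 (T k).op (T k).disj ((q4 k).trans (t1 k)) h1 h2 hi hj
  choose i j hij hi1 hjN hIn hOut using hI
  by_contra hcon
  -- neither side is dense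
  have hR : ∀ k, ∃ x : X, ∀ l, j k + 4 ≤ l → ∀ y ∈ c k l, ε ≤ dist x y := by
    intro k
    by_contra hc
    push Not at hc
    refine hcon ⟨N k, j k + 2, c k, ⟨(T k).op, fun l => ((T k).di l).trans_le (min_le_left _ _),
      (T k).zero, (T k).big, (T k).disj, (T k).cl⟩, ?_, ?_, ?_, fun x => ?_, fun x => ?_⟩
    · have := hij k
      have := hi1 k
      omega
    · obtain ⟨l, h1, y, hy, -⟩ := hc x₀
      have := (T k).index hy
      omega
    · obtain ⟨l, h1, y, hy, -⟩ := hc x₀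
      have := (T k).index hy
      exact (t3 k (j k + 2) (by omega) (by omega)).mono inter_subset_left
    · obtain ⟨y, hy, hxy⟩ := p5 x
      obtain ⟨l, hl⟩ := mem_iUnion.1 (t1 k (q4 k hy))
      have h1 := hOut k l ⟨y, hl, hy⟩
      have h2 := (T k).index hl
      exact ⟨l, h2.1, by omega, y, hl, hxy⟩
    · obtain ⟨l, h1, y, hy, hxy⟩ := hc x
      have h2 := (T k).index hy
      exact ⟨l, by omega, h2.2, y, hy, hxy⟩
  have hL : ∀ k, ∃ x : X, ∀ l, l + 4 ≤ i k → ∀ y ∈ c k l, ε ≤ dist x y := by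
    intro k
    by_contra hc
    push Not at hc
    have h0 : 5 ≤ i k := by
      obtain ⟨l, h1, y, hy, -⟩ := hc x₀
      have := (T k).index hy
      omega
    have h1 := hij k
    have h2 := hjN k
    refine hcon ⟨N k, i k - 2, c k, ⟨(T k).op, fun l => ((T k).di l).trans_le (min_le_left _ _),
      (T k).zero, (T k).big, (T k).disj, (T k).cl⟩, by omega, by omega, ?_, fun x => ?_,
      fun x => ?_⟩
    · exact (t3 k (i k - 2) (by omega) (by omega)).mono inter_subset_left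
    · obtain ⟨l, h1, y, hy, hxy⟩ := hc x
      have h2 := (T k).index hy
      exact ⟨l, h2.1, by omega, y, hy, hxy⟩
    · obtain ⟨y, hy, hxy⟩ := p5 x
      obtain ⟨l, hl⟩ := mem_iUnion.1 (t1 k (q4 k hy))
      have h1 := hOut k l ⟨y, hl, hy⟩
      have h2 := (T k).index hl
      exact ⟨l, by omega, h2.2, y, hl, hxy⟩
  choose xr hxr using hR
  choose xl hxl using hL
  let F : Ultrafilter ℕ := hyperfilter ℕ
  have hF : (F : Filter ℕ) ≤ atTop := Nat.hyperfilter_le_atTop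
  have hlim : Tendsto (fun k : ℕ => (1 : ℝ) / (k + 1)) F (𝓝 0) :=
    tendsto_one_div_add_atTop_nhds_zero_nat.mono_left hF
  have hlim4 : Tendsto (fun k : ℕ => 4 * ((1 : ℝ) / (k + 1))) F (𝓝 0) := by
    have := hlim.const_mul 4
    rwa [mul_zero] at this
  have hlim' : Tendsto (fun k : ℕ => min ε ((1 : ℝ) / (k + 1))) F (𝓝 0) := by
    refine squeeze_zero (fun k => (lt_min hε (hpos k)).le) (fun k => min_le_right _ _) hlim
  let Zl : ℕ → Set X := fun k => {x | x ∈ P k ∧ ∃ l, 0 ≤ l ∧ l ≤ i k - 4 ∧ x ∈ c k l}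
  let Zr : ℕ → Set X := fun k => {x | x ∈ P k ∧ ∃ l, j k + 4 ≤ l ∧ l ≤ N k ∧ x ∈ c k l}
  let V : ℕ → Set X := fun k => {x | x ∈ P k ∧ ∃ l, i k ≤ l ∧ l ≤ N k ∧ x ∈ c k l}
  let W : ℕ → Set X := fun k => {x | x ∈ P k ∧ ∃ l, i k ≤ l + 3 ∧ l ≤ j k + 3 ∧ x ∈ c k l}
  have hW : ULim F W ⊆ P₁ := by
    refine ULim.subset_of_near hlim4 p1 fun k z hz => ?_
    obtain ⟨hzP, l, h1, h2, hzl⟩ := hz
    have hη0 : 0 < min ε ((1 : ℝ) / (k + 1)) := lt_min hε (hpos k)
    have hη : min ε ((1 : ℝ) / (k + 1)) ≤ 1 / (k + 1) := min_le_right _ _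
    rcases lt_trichotomy l (i k) with h | h | h
    · -- to the left
      obtain ⟨p, hp, hpP⟩ := hIn k (i k) le_rfl (hij k)
      refine ⟨p, hpP, ?_⟩
      have h3 := (T k).dist_lt (q2 k).2 (t1 k) (t3 k) hzl (i k - l) p (by
        rw [show l + (i k - l) = i k by omega]; exact hp)
      have h4 : ((i k - l : ℕ) : ℝ) ≤ 3 := by
        exact_mod_cast (show i k - l ≤ 3 by omega)
      nlinarith
    · obtain ⟨p, hp, hpP⟩ := hIn k (i k) le_rfl (hij k)
      refine ⟨p, hpP, ?_⟩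
      have h3 := dist_le_diam (h ▸ hzl : z ∈ c k (i k)) hp
      have h4 := (T k).di (i k)
      linarith
    · rcases le_or_gt l (j k) with h' | h'
      · obtain ⟨p, hp, hpP⟩ := hIn k l h.le h'
        refine ⟨p, hpP, ?_⟩
        have h3 := dist_le_diam hzl hp
        have h4 := (T k).di l
        linarith
      · obtain ⟨p, hp, hpP⟩ := hIn k (j k) (hij k) le_rfl
        refine ⟨p, hpP, ?_⟩
        have h3 := (T k).dist_lt (q2 k).2 (t1 k) (t3 k) hp (l - j k) z (by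
          rw [show j k + (l - j k) = l by omega]; exact hzl)
        have h4 : ((l - j k : ℕ) : ℝ) ≤ 3 := by
          exact_mod_cast (show l - j k ≤ 3 by omega)
        rw [dist_comm]
        nlinarith
  have hP : ULim F P = univ := ULim.of_dense hlim fun k x => q5 k x
  have hcl : IsClosed (ULim F Zl) := ULim.isClosed _
  have hcr : IsClosed (ULim F Zr) := ULim.isClosed _
  have hcV : IsClosed (ULim F V) := ULim.isClosed _
  have hpl : IsPreconnected (ULim F Zl) :=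
    ULim.preconnected hlim' fun k => (T k).dc (q2 k).2 (t1 k) (t3 k) 0 (i k - 4)
  have hpr : IsPreconnected (ULim F Zr) :=
    ULim.preconnected hlim' fun k => (T k).dc (q2 k).2 (t1 k) (t3 k) (j k + 4) (N k)
  have hpV : IsPreconnected (ULim F V) :=
    ULim.preconnected hlim' fun k => (T k).dc (q2 k).2 (t1 k) (t3 k) (i k) (N k)
  have hVsub : ULim F V ⊆ P₁ ∪ ULim F Zr := by
    refine (ULim.union_subset (Z₁ := W) (Z₂ := Zr) fun k x hx => ?_).trans
      (union_subset_union_left _ hW)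
    obtain ⟨hxP, l, h1, h2, hxl⟩ := hx
    rcases le_or_gt l (j k + 3) with h | h
    · exact Or.inl ⟨hxP, l, by omega, h, hxl⟩
    · exact Or.inr ⟨hxP, l, by omega, h2, hxl⟩
  have hcover : ULim F Zl ∪ ULim F V = univ := by
    rw [← univ_subset_iff, ← hP]
    intro x hx
    rcases ULim.union_subset (Z₁ := Zl) (Z₂ := fun k => W k ∪ V k) (fun k x hx => by
      obtain ⟨l, hxl⟩ := mem_iUnion.1 (t1 k hx)
      have h1 := (T k).index hxl
      rcases le_or_gt (i k) l with h | h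
      · exact Or.inr (Or.inr ⟨hx, l, h, h1.2, hxl⟩)
      · rcases le_or_gt (i k) (l + 3) with h' | h'
        · have := hij k
          exact Or.inr (Or.inl ⟨hx, l, h', by omega, hxl⟩)
        · exact Or.inl ⟨hx, l, by omega, by omega, hxl⟩) hx with h | h
    · exact Or.inl h
    · rcases ULim.union_subset (Z₁ := W) (Z₂ := V) (fun k => subset_rfl) h with h | h
      · refine Or.inr (ULim.const_subset (P := P₁) (fun k x hx => ?_) (hW h))
        obtain ⟨l, hxl⟩ := mem_iUnion.1 (t1 k (q4 k hx))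
        have h1 := hOut k l ⟨x, hxl, hx⟩
        have h2 := (T k).index hxl
        exact ⟨q4 k hx, l, h1.1, h2.2, hxl⟩
      · exact Or.inr h
  have hlne : ULim F Zl ≠ univ := by
    intro h
    obtain ⟨x, hx⟩ := exists_ulim F xl
    have hxU : x ∈ ULim F Zl := h ▸ mem_univ x
    obtain ⟨k, h1, z, hz1, -, l, -, h2, hzl⟩ :=
      ((hx (ε / 2) (half_pos hε)).and (hxU (ε / 2) (half_pos hε))).exists
    have h3 := (T k).index hzl
    have h4 := hxl k l (by omega) z hzl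
    have h5 := dist_triangle (xl k) x z
    rw [mem_ball] at h1
    rw [mem_ball, dist_comm] at hz1
    linarith
  have hrne : ULim F Zr ≠ univ := by
    intro h
    obtain ⟨x, hx⟩ := exists_ulim F xr
    have hxU : x ∈ ULim F Zr := h ▸ mem_univ x
    obtain ⟨k, h1, z, hz1, -, l, h2, -, hzl⟩ :=
      ((hx (ε / 2) (half_pos hε)).and (hxU (ε / 2) (half_pos hε))).exists
    have h4 := hxr k l h2 z hzl
    have h5 := dist_triangle (xr k) x z
    rw [mem_ball] at h1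
    rw [mem_ball, dist_comm] at hz1
    linarith
  have hVu : ULim F V = univ := (hind _ _ hcl hcV hpl hpV hcover).resolve_left hlne
  have hcover2 : P₁ ∪ ULim F Zr = univ := univ_subset_iff.1 (hVu ▸ hVsub)
  rcases hind _ _ p1 hcr p2.2 hpr hcover2 with h | h
  · exact p3 h
  · exact hrne h

end Pool.Agent.Lib.MP_385b3e_gt
end

section

set_option autoImplicit false

namespace Pool.Agent.Lib.MP_385b3e_gt

open Set Metric Filter Topology

variable {X : Type*} [MetricSpace X] [CompactSpace X]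

/-- The conclusion of the frozen statement. -/
def Concl (X : Type*) [MetricSpace X] (ε : ℝ) : Prop :=
  ∃ (m n : ℕ) (D : Fin m → Set X) (c : Fin (n + 1) → Fin m),
      (∀ k, IsOpen (D k)) ∧ (∀ k, Metric.diam (D k) < ε) ∧ (⋃ k, D k) = Set.univ ∧
      Function.Injective c ∧
      (∀ i j : Fin (n + 1), (D (c i) ∩ D (c j)).Nonempty ↔
          ((i : ℕ) ≤ (j : ℕ) + 1 ∧ (j : ℕ) ≤ (i : ℕ) + 1)) ∧
      (∀ k, k ∉ Set.range c → ∀ i : Fin (n + 1), i ≠ 0 → D k ∩ D (c i) = ∅) ∧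
      (∀ x : X, ∃ i, Metric.infDist x (D (c i)) < ε)

/-- A free dense tube gives the conclusion. -/
theorem conclusion_of_free [ConnectedSpace X] {ε : ℝ} (hε : 0 < ε) {n : ℕ} {U : Fin n → Set X}
    (hUo : ∀ i, IsOpen (U i)) (hUd : ∀ i, diam (U i) < ε) (hUc : (⋃ i, U i) = univ)
    (hUne : ∀ i, (U i).Nonempty) (H : Set (Fin n)) (μ : Fin n → ℕ)
    (h1 : ∀ v ∈ H, ∀ w ∈ H, (U v ∩ U w).Nonempty → μ v ≤ μ w + 1)
    (h2 : ∀ v ∈ H, ∀ w, w ∉ H → (U v ∩ U w).Nonempty → μ v = 0)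
    (h3 : ∀ i, ∃ S : Set X, diam S < ε ∧ ∀ v ∈ H, μ v = i → U v ⊆ S)
    (h4 : ∀ x, ∃ v ∈ H, ∃ z ∈ U v, dist x z < ε) : Concl X ε := by
  classical
  let L : ℕ → Set X := fun i => ⋃ v ∈ {v | v ∈ H ∧ μ v = i}, U v
  have hL : ∀ i x, x ∈ L i ↔ ∃ v ∈ H, μ v = i ∧ x ∈ U v := by
    intro i x
    simp only [L, mem_iUnion, mem_setOf_eq, exists_prop, and_assoc]
  have hLo : ∀ i, IsOpen (L i) := fun i => isOpen_biUnion fun v _ => hUo v
  have hHne : H.Nonempty := by
    obtain ⟨x⟩ := (inferInstance : Nonempty X)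
    obtain ⟨v, hv, -⟩ := h4 x
    exact ⟨v, hv⟩
  obtain ⟨v₀, hv₀, hmin⟩ := Set.exists_min_image H μ (Set.toFinite _) hHne
  obtain ⟨v₁, hv₁, hmax⟩ := Set.exists_max_image H μ (Set.toFinite _) hHne
  set a := μ v₀ with ha
  set b := μ v₁ with hb
  have hab : a ≤ b := hmin v₁ hv₁
  have hcons : ∀ i, a ≤ i → i < b → (L i ∩ L (i + 1)).Nonempty := by
    intro i hai hib
    have hO1 : IsOpen (⋃ v ∈ {v | v ∉ H ∨ μ v ≤ i}, U v) := isOpen_biUnion fun v _ => hUo v
    have hO2 : IsOpen (⋃ v ∈ {v | v ∈ H ∧ i < μ v}, U v) := isOpen_biUnion fun v _ => hUo v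
    obtain ⟨x, -, hx1, hx2⟩ := isPreconnected_univ (α := X) _ _ hO1 hO2 (fun x _ => by
      obtain ⟨v, hv⟩ := mem_iUnion.1 (hUc ▸ mem_univ x : x ∈ ⋃ i, U i)
      by_cases h : v ∈ H ∧ i < μ v
      · exact Or.inr (mem_biUnion (s := {v | v ∈ H ∧ i < μ v}) h hv)
      · refine Or.inl (mem_biUnion (s := {v | v ∉ H ∨ μ v ≤ i}) ?_ hv)
        rw [mem_setOf_eq]
        by_contra h'
        push Not at h'
        exact h h') (by
      obtain ⟨x, hx⟩ := hUne v₀
      exact ⟨x, mem_univ x, mem_biUnion (s := {v | v ∉ H ∨ μ v ≤ i}) (Or.inr hai) hx⟩) (by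
      obtain ⟨x, hx⟩ := hUne v₁
      exact ⟨x, mem_univ x, mem_biUnion (s := {v | v ∈ H ∧ i < μ v}) ⟨hv₁, hib⟩ hx⟩)
    obtain ⟨v, hv, hxv⟩ := mem_iUnion₂.1 hx1
    obtain ⟨w, ⟨hwH, hwi⟩, hxw⟩ := mem_iUnion₂.1 hx2
    have hvH : v ∈ H := by
      by_contra h
      have := h2 w hwH v h ⟨x, hxw, hxv⟩
      omega
    have hvi : μ v ≤ i := by
      rcases hv with h | h
      · exact absurd hvH h
      · exact h
    have := h1 w hwH v hvH ⟨x, hxw, hxv⟩
    exact ⟨x, (hL _ _).2 ⟨v, hvH, by omega, hxv⟩, (hL _ _).2 ⟨w, hwH, by omega, hxw⟩⟩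
  have hLne : ∀ i, a ≤ i → i ≤ b → (L i).Nonempty := by
    intro i hai hib
    rcases eq_or_lt_of_le hib with h | h
    · obtain ⟨x, hx⟩ := hUne v₁
      exact ⟨x, (hL _ _).2 ⟨v₁, hv₁, h.symm, hx⟩⟩
    · exact (hcons i hai h).mono inter_subset_left
  have hfar : ∀ i j, (L i ∩ L j).Nonempty → i ≤ j + 1 := by
    rintro i j ⟨x, hx1, hx2⟩
    obtain ⟨v, hv, rfl, hxv⟩ := (hL _ _).1 hx1
    obtain ⟨w, hw, rfl, hxw⟩ := (hL _ _).1 hx2
    exact h1 v hv w hw ⟨x, hxv, hxw⟩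
  let D : Fin ((b - a + 1) + n) → Set X := fun k =>
    Fin.addCases (motive := fun _ => Set X) (fun i : Fin (b - a + 1) => L (a + i))
      (fun v => if v ∈ H then ∅ else U v) k
  have hD1 : ∀ i : Fin (b - a + 1), D (Fin.castAdd n i) = L (a + i) := fun i => by
    simp only [D, Fin.addCases_left]
  have hD2 : ∀ v : Fin n, D (Fin.natAdd (b - a + 1) v) = if v ∈ H then ∅ else U v := fun v => by
    simp only [D, Fin.addCases_right]
  refine ⟨(b - a + 1) + n, b - a, D, Fin.castAdd n, fun k => ?_, fun k => ?_, ?_,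
    Fin.castAdd_injective _ _, fun i j => ?_, fun k hk i hi => ?_, fun x => ?_⟩
  · induction k using Fin.addCases with
    | left i => rw [hD1]; exact hLo _
    | right v =>
      rw [hD2]
      split_ifs
      · exact isOpen_empty
      · exact hUo v
  · induction k using Fin.addCases with
    | left i =>
      rw [hD1]
      obtain ⟨S, hS, hS'⟩ := h3 (a + i)
      refine (diam_mono' fun x hx => ?_).trans_lt hS
      obtain ⟨v, hv, hv', hxv⟩ := (hL _ _).1 hx
      exact hS' v hv hv' hxv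
    | right v =>
      rw [hD2]
      split_ifs
      · simpa using hε
      · exact hUd v
  · refine eq_univ_of_forall fun x => ?_
    obtain ⟨v, hv⟩ := mem_iUnion.1 (hUc ▸ mem_univ x : x ∈ ⋃ i, U i)
    by_cases hvH : v ∈ H
    · have h5 := hmin v hvH
      have h6 := hmax v hvH
      refine mem_iUnion.2 ⟨Fin.castAdd n ⟨μ v - a, by omega⟩, ?_⟩
      rw [hD1]
      refine (hL _ _).2 ⟨v, hvH, ?_, hv⟩
      dsimp only
      omega
    · refine mem_iUnion.2 ⟨Fin.natAdd (b - a + 1) v, ?_⟩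
      rw [hD2, if_neg hvH]
      exact hv
  · rw [hD1, hD1]
    have hi := i.2
    have hj := j.2
    constructor
    · intro h
      have e1 := hfar _ _ h
      rw [inter_comm] at h
      have e2 := hfar _ _ h
      omega
    · rintro ⟨e1, e2⟩
      rcases lt_trichotomy (i : ℕ) (j : ℕ) with h | h | h
      · have e : a + (j : ℕ) = a + i + 1 := by omega
        rw [e]
        exact hcons _ (by omega) (by omega)
      · rw [h, inter_self]
        exact hLne _ (by omega) (by omega)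
      · have e : a + (i : ℕ) = a + j + 1 := by omega
        rw [e, inter_comm]
        exact hcons _ (by omega) (by omega)
  · induction k using Fin.addCases with
    | left j => exact absurd ⟨j, rfl⟩ hk
    | right v =>
      rw [hD2, hD1]
      split_ifs with hvH
      · exact empty_inter _
      · rw [eq_empty_iff_forall_notMem]
        rintro x ⟨hx1, hx2⟩
        obtain ⟨w, hw, hwi, hxw⟩ := (hL _ _).1 hx2
        have := h2 w hw v hvH ⟨x, hxw, hx1⟩
        have : (i : ℕ) ≠ 0 := fun h => hi (Fin.ext h)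
        omega
  · obtain ⟨v, hv, z, hz, hxz⟩ := h4 x
    have h5 := hmin v hv
    have h6 := hmax v hv
    refine ⟨⟨μ v - a, by omega⟩, ?_⟩
    rw [hD1]
    refine (infDist_le_dist_of_mem ((hL _ _).2 ⟨v, hv, ?_, hz⟩)).trans_lt hxz
    dsimp only
    omega

end Pool.Agent.Lib.MP_385b3e_gt
end

section

set_option autoImplicit false

namespace Pool.Agent.Lib.MP_385b3e_gt

open Set Metric Filter Topology
open SimpleGraph hiding dist

variable {X : Type*} [MetricSpace X] [CompactSpace X]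

/-- The nerve vertices meeting a connected set form a connected set of vertices. -/
theorem connIn_meet {V : Type*} {U : V → Set X} {G : SimpleGraph V} (hUo : ∀ i, IsOpen (U i))
    (hUc : (⋃ i, U i) = univ) (hG : ∀ i j, G.Adj i j ↔ i ≠ j ∧ (U i ∩ U j).Nonempty)
    {A : Set X} (hA : IsPreconnected A) : ConnIn G {t | (U t ∩ A).Nonempty} := by
  intro u hu v hv
  by_contra hcon
  let R : Set V := {w | ∃ p : G.Walk u w, ∀ x ∈ p.support, x ∈ {t | (U t ∩ A).Nonempty}}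
  have huR : u ∈ R := ⟨Walk.nil, fun x hx => by
    simp only [Walk.support_nil, List.mem_singleton] at hx
    exact hx ▸ hu⟩
  have hvR : v ∉ R := hcon
  obtain ⟨x, hxA, hx1, hx2⟩ := hA (⋃ t ∈ R, U t) (⋃ t ∈ Rᶜ, U t)
    (isOpen_biUnion fun t _ => hUo t) (isOpen_biUnion fun t _ => hUo t) (fun x _ => by
      obtain ⟨t, ht⟩ := mem_iUnion.1 (hUc ▸ mem_univ x : x ∈ ⋃ i, U i)
      by_cases h : t ∈ R
      · exact Or.inl (mem_biUnion h ht)
      · exact Or.inr (mem_biUnion h ht)) (by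
      obtain ⟨x, h1, h2⟩ := hu
      exact ⟨x, h2, mem_biUnion huR h1⟩) (by
      obtain ⟨x, h1, h2⟩ := hv
      exact ⟨x, h2, mem_biUnion (show v ∈ Rᶜ from hvR) h1⟩)
  obtain ⟨t, ⟨p, hp⟩, hxt⟩ := mem_iUnion₂.1 hx1
  obtain ⟨t', ht', hxt'⟩ := mem_iUnion₂.1 hx2
  have hadj : G.Adj t t' := (hG t t').2 ⟨fun h => ht' (h ▸ ⟨p, hp⟩), x, hxt, hxt'⟩
  refine ht' ⟨p.concat hadj, fun y hy => ?_⟩
  rw [Walk.support_concat, List.mem_append, List.mem_singleton] at hy
  rcases hy with hy | rfl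
  · exact hp y hy
  · exact ⟨x, hxt', hxA⟩

/-- In a tree, two vertices lying in two connected sets are joined inside the intersection. -/
theorem walk_in_inter {V : Type*} {G : SimpleGraph V} (hG : G.IsAcyclic) {S T : Set V}
    (hS : ConnIn G S) (hT : ConnIn G T) {u v : V} (huS : u ∈ S) (huT : u ∈ T) (hvS : v ∈ S)
    (hvT : v ∈ T) : ∃ p : G.Walk u v, ∀ w ∈ p.support, w ∈ S ∧ w ∈ T := by
  classical
  obtain ⟨p, hp⟩ := hS u huS v hvS
  obtain ⟨q, hq⟩ := hT u huT v hvT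
  have := (hG.subsingleton_path u v).elim p.toPath q.toPath
  refine ⟨(p.toPath : G.Walk u v), fun w hw => ⟨hp w (Walk.support_toPath_subset_support p hw), ?_⟩⟩
  rw [this] at hw
  exact hq w (Walk.support_toPath_subset_support q hw)

theorem walk_ivt {V : Type*} {G : SimpleGraph V} {lam : V → ℕ} {u v : V} (p : G.Walk u v)
    (hlip : ∀ x ∈ p.support, ∀ y ∈ p.support, G.Adj x y → lam y ≤ lam x + 1) {j : ℕ}
    (hu : lam u ≤ j) (hv : j ≤ lam v) : ∃ x ∈ p.support, lam x = j := by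
  rcases eq_or_lt_of_le hu with h | h
  · exact ⟨u, p.start_mem_support, h⟩
  · have hv' : v ∉ {x | lam x < j} := not_lt.2 hv
    obtain ⟨d, hd, h1, h2⟩ := p.exists_boundary_dart {x | lam x < j} h hv'
    have h3 := hlip d.fst (p.dart_fst_mem_support_of_mem_darts hd) d.snd
      (p.dart_snd_mem_support_of_mem_darts hd) d.adj
    refine ⟨d.snd, p.dart_snd_mem_support_of_mem_darts hd, ?_⟩
    simp only [mem_setOf_eq] at h1 h2
    omega

/-- The decomposable case. -/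
theorem concl_decomposable [ConnectedSpace X] (hT : TreeHyp X) (hX : ChainHyp X) {A B : Set X}
    (hA : IsClosed A) (hAc : IsConnected A) (hAu : A ≠ univ) (hB : IsClosed B)
    (hBc : IsConnected B) (hBu : B ≠ univ) (hAB : A ∪ B = univ) {ε : ℝ} (hε : 0 < ε) :
    Concl X ε := by
  classical
  obtain ⟨B', b1, b2, b3, b4, b5⟩ := exists_dense hB hBc hBu hε
  obtain ⟨x₀, hx₀⟩ := (ne_univ_iff_exists_notMem A).1 hAu
  have hABu' : A ∪ B' = univ := univ_subset_iff.1 (hAB ▸ union_subset_union_right A b4)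
  have hx₀B : x₀ ∈ B' := by
    rcases (hABu' ▸ mem_univ x₀ : x₀ ∈ A ∪ B') with h | h
    · exact absurd h hx₀
    · exact h
  have hpos : 0 < infDist x₀ A := (hA.notMem_iff_infDist_pos hAc.1).1 hx₀
  obtain ⟨N, c, T, hBsub, hN1, hcB⟩ := exists_tube hX b1 b2 b3 (lt_min hε hpos)
  obtain ⟨j₀, hj₀⟩ := mem_iUnion.1 (hBsub hx₀B)
  have hj₀A : Disjoint (c j₀) A := by
    rw [Set.disjoint_left]
    intro a ha haA
    have h1 := infDist_le_dist_of_mem (x := x₀) haA
    have h2 := dist_le_diam hj₀ ha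
    have h3 := (T.di j₀).trans_le (min_le_right _ _)
    linarith
  obtain ⟨δ₁, hδ₁, hloc⟩ := T.exists_loc
  obtain ⟨δ₂, hδ₂, hleb⟩ := lebesgue_number_lemma_of_metric b1.isCompact T.op hBsub
  obtain ⟨n, U, G, u1, u2, u3, hG, hadj, hne⟩ := tree_cover hT (lt_min hε (lt_min hδ₁ hδ₂))
  have ud1 : ∀ i, diam (U i) < ε := fun i => (u2 i).trans_le (min_le_left _ _)
  have ud2 : ∀ i, diam (U i) < δ₁ := fun i =>
    (u2 i).trans_le ((min_le_right _ _).trans (min_le_left _ _))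
  have ud3 : ∀ i, diam (U i) < δ₂ := fun i =>
    (u2 i).trans_le ((min_le_right _ _).trans (min_le_right _ _))
  have hcne : ∀ i j, U i ⊆ c j → 1 ≤ j ∧ j ≤ N := by
    intro i j h
    obtain ⟨x, hx⟩ := (hne i).mono h
    refine ⟨?_, ?_⟩
    · by_contra h'
      have h0 : j = 0 := by omega
      rw [h0, T.zero] at hx
      exact hx
    · by_contra h'
      rw [T.big j (by omega)] at hx
      exact hx
  let lam : Fin n → ℕ := fun t => if h : ∃ j, U t ⊆ c j then h.choose else 0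
  have hlam : ∀ t, lam t ≠ 0 → U t ⊆ c (lam t) := by
    intro t ht
    by_cases h : ∃ j, U t ⊆ c j
    · have : lam t = h.choose := dif_pos h
      rw [this]
      exact h.choose_spec
    · exact absurd (dif_neg h) ht
  have hlam0 : ∀ t, lam t = 0 → ∀ i, 1 < i → i < N → Disjoint (U t) (c i) := by
    intro t ht
    by_cases h : ∃ j, U t ⊆ c j
    · have h1 : lam t = h.choose := dif_pos h
      have h2 := (hcne t _ h.choose_spec).1
      omega
    · exact (hloc (U t) (ud2 t)).resolve_left h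
  have hlamB : ∀ t, (U t ∩ B').Nonempty → lam t ≠ 0 := by
    rintro t ⟨x, hxt, hxB⟩
    obtain ⟨j, hj⟩ := hleb x hxB
    have h : ∃ j, U t ⊆ c j := ⟨j, fun y hy => hj (mem_ball.2 ((dist_le_diam hy hxt).trans_lt
      (ud3 t)))⟩
    have h1 : lam t = h.choose := dif_pos h
    have h2 := (hcne t _ h.choose_spec).1
    omega
  have hlamN : ∀ t, lam t ≤ N := by
    intro t
    by_cases h : lam t = 0
    · omega
    · exact (hcne t _ (hlam t h)).2
  have hlip : ∀ v w, (U v ∩ U w).Nonempty → lam v ≠ 0 → lam w ≠ 0 → lam v ≤ lam w + 1 := by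
    rintro v w ⟨x, hxv, hxw⟩ hv hw
    by_contra h
    exact Set.disjoint_left.1 (T.disj (lam w) (lam v) (by omega)) (hlam w hw hxw) (hlam v hv hxv)
  -- the component
  obtain ⟨y₀, hy₀⟩ := b2.1
  obtain ⟨t₀, ht₀⟩ := mem_iUnion.1 (u3 ▸ mem_univ y₀ : y₀ ∈ ⋃ i, U i)
  let H : Set (Fin n) := {w | ∃ p : G.Walk t₀ w, ∀ x ∈ p.support, lam x ≠ 0}
  have hHlam : ∀ t ∈ H, lam t ≠ 0 := by
    rintro t ⟨p, hp⟩
    exact hp t p.end_mem_support
  have hHstep : ∀ t ∈ H, ∀ s, G.Adj t s → lam s ≠ 0 → s ∈ H := by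
    rintro t ⟨p, hp⟩ s hts hs
    refine ⟨p.concat hts, fun y hy => ?_⟩
    rw [Walk.support_concat, List.mem_append, List.mem_singleton] at hy
    rcases hy with hy | rfl
    · exact hp y hy
    · exact hs
  have hHconn : ConnIn G H := by
    rintro u ⟨p, hp⟩ v ⟨q, hq⟩
    refine ⟨p.reverse.append q, fun w hw => ?_⟩
    rw [Walk.mem_support_append_iff] at hw
    rcases hw with hw | hw
    · rw [Walk.support_reverse, List.mem_reverse] at hw
      exact ⟨p.takeUntil w hw, fun y hy => hp y (Walk.support_takeUntil_subset_support p hw hy)⟩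
    · exact ⟨q.takeUntil w hw, fun y hy => hq y (Walk.support_takeUntil_subset_support q hw hy)⟩
  have hBH : ∀ t, (U t ∩ B').Nonempty → t ∈ H := by
    intro t ht
    obtain ⟨p, hp⟩ := connIn_meet u1 u3 hadj b2.2 t₀ ⟨y₀, ht₀, hy₀⟩ t ht
    exact ⟨p, fun x hx => hlamB x (hp x hx)⟩
  have hexit : ∀ v ∈ H, ∀ w, w ∉ H → (U v ∩ U w).Nonempty →
      (lam v = 1 ∨ lam v = N) ∧ (U v ∩ A).Nonempty := by
    intro v hv w hw hvw
    have hne' : v ≠ w := fun h => hw (h ▸ hv)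
    have hw0 : lam w = 0 := by
      by_contra h
      exact hw (hHstep v hv w ((hadj v w).2 ⟨hne', hvw⟩) h)
    obtain ⟨x, hxv, hxw⟩ := hvw
    refine ⟨?_, x, hxv, ?_⟩
    · by_contra h
      have h1 := hlamN v
      have h2 := hHlam v hv
      exact Set.disjoint_left.1 (hlam0 w hw0 (lam v) (by omega) (by omega)) hxw
        (hlam v (hHlam v hv) hxv)
    · have hxB : x ∉ B' := fun h => hw (hBH w ⟨x, hxw, h⟩)
      rcases (hABu' ▸ mem_univ x : x ∈ A ∪ B') with h | h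
      · exact h
      · exact absurd h hxB
  have hkey : (∀ v ∈ H, ∀ w, w ∉ H → (U v ∩ U w).Nonempty → lam v = 1) ∨
      (∀ v ∈ H, ∀ w, w ∉ H → (U v ∩ U w).Nonempty → lam v = N) := by
    by_contra hcon
    push Not at hcon
    obtain ⟨⟨v, hv, w, hw, hvw, hne1⟩, ⟨v', hv', w', hw', hvw', hne2⟩⟩ := hcon
    obtain ⟨h1, h2⟩ := hexit v hv w hw hvw
    obtain ⟨h3, h4⟩ := hexit v' hv' w' hw' hvw'
    have h5 := h1.resolve_left hne1
    have h6 := h3.resolve_right hne2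
    obtain ⟨p, hp⟩ := walk_in_inter hG.isAcyclic hHconn (connIn_meet u1 u3 hadj hAc.2)
      hv' h4 hv h2
    have hj₀N : 1 ≤ j₀ ∧ j₀ ≤ N := by
      refine ⟨?_, ?_⟩
      · by_contra h'
        have h0 : j₀ = 0 := by omega
        rw [h0, T.zero] at hj₀
        exact hj₀
      · by_contra h'
        rw [T.big j₀ (by omega)] at hj₀
        exact hj₀
    obtain ⟨x, hx, hxj⟩ := walk_ivt (lam := lam) p (fun x hx y hy hxy => by
      have h7 := ((hadj x y).1 hxy).2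
      rw [inter_comm] at h7
      exact hlip y x h7 (hHlam y (hp y hy).1) (hHlam x (hp x hx).1)) (j := j₀)
      (by omega) (by omega)
    obtain ⟨z, hz, hzA⟩ := (hp x hx).2
    have h8 := hlam x (hHlam x (hp x hx).1) hz
    rw [hxj] at h8
    exact Set.disjoint_left.1 hj₀A h8 hzA
  have hlevel : ∀ μ : Fin n → ℕ, (∀ v ∈ H, ∀ w ∈ H, μ v = μ w → lam v = lam w) →
      ∀ i, ∃ S : Set X, diam S < ε ∧ ∀ v ∈ H, μ v = i → U v ⊆ S := by
    intro μ hμ i
    by_cases h : ∃ v ∈ H, μ v = i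
    · obtain ⟨v, hv, hvi⟩ := h
      refine ⟨c (lam v), (T.di _).trans_le (min_le_left _ _), fun w hw hwi => ?_⟩
      rw [hμ v hv w hw (hvi.trans hwi.symm)]
      exact hlam w (hHlam w hw)
    · push Not at h
      exact ⟨∅, by simpa using hε, fun v hv hvi => absurd hvi (h v hv)⟩
  have hdense : ∀ x, ∃ v ∈ H, ∃ z ∈ U v, dist x z < ε := by
    intro x
    obtain ⟨y, hy, hxy⟩ := b5 x
    obtain ⟨t, ht⟩ := mem_iUnion.1 (u3 ▸ mem_univ y : y ∈ ⋃ i, U i)
    exact ⟨t, hBH t ⟨y, ht, hy⟩, y, ht, hxy⟩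
  rcases hkey with hkey | hkey
  · refine conclusion_of_free hε u1 ud1 u3 hne H (fun v => lam v - 1)
      (fun v hv w hw h => ?_) (fun v hv w hw h => ?_) (hlevel _ fun v hv w hw h => ?_) hdense
    · have := hlip v w h (hHlam v hv) (hHlam w hw)
      omega
    · have := hkey v hv w hw h
      omega
    · have h1 := hHlam v hv
      have h2 := hHlam w hw
      omega
  · refine conclusion_of_free hε u1 ud1 u3 hne H (fun v => N - lam v)
      (fun v hv w hw h => ?_) (fun v hv w hw h => ?_) (hlevel _ fun v hv w hw h => ?_) hdense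
    · rw [inter_comm] at h
      have := hlip w v h (hHlam w hw) (hHlam v hv)
      omega
    · have := hkey v hv w hw h
      omega
    · have h1 := hlamN v
      have h2 := hlamN w
      omega

end Pool.Agent.Lib.MP_385b3e_gt
end

section

set_option autoImplicit false

namespace Pool.Agent.Lib.MP_385b3e_gt

open Set Metric Filter Topology

variable {X : Type*} [MetricSpace X] [CompactSpace X]

/-- A tube with two dense sides gives the conclusion. -/
theorem concl_of_twosided [ConnectedSpace X] (hT : TreeHyp X) (hX : ChainHyp X) {ε : ℝ}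
    (hε : 0 < ε) {N m : ℕ} {c : ℕ → Set X} (T : Tube N c (ε / 2)) (hm : 3 ≤ m) (hmN : m + 2 ≤ N)
    (hcm : (c m).Nonempty)
    (hleft : ∀ x, ∃ j, 1 ≤ j ∧ j + 2 ≤ m ∧ ∃ y ∈ c j, dist x y < ε / 2)
    (hright : ∀ x, ∃ j, m + 2 ≤ j ∧ j ≤ N ∧ ∃ y ∈ c j, dist x y < ε / 2) : Concl X ε := by
  classical
  obtain ⟨δ₁, hδ₁, hloc⟩ := T.exists_loc
  have hK : IsClosed (c m)ᶜ := (T.op m).isClosed_compl
  have hKu : (c m)ᶜ ≠ univ := by
    intro h
    rw [compl_univ_iff] at h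
    rw [h] at hcm
    exact not_nonempty_empty hcm
  obtain ⟨n', w, w1, w2, w3, w4, w5⟩ := wc_closed hX hK hKu (lt_min hδ₁ hε)
  have wd1 : ∀ i, diam (w i) < δ₁ := fun i => (w2 i).trans_le (min_le_left _ _)
  have wd2 : ∀ i, diam (w i) < ε := fun i => (w2 i).trans_le (min_le_right _ _)
  let ψ : ℕ → ℕ := fun k => if h : ∃ j, 1 ≤ j ∧ j ≤ N ∧ w k ⊆ c j then h.choose else 0
  have hψ : ∀ k, ψ k ≠ 0 → 1 ≤ ψ k ∧ ψ k ≤ N ∧ w k ⊆ c (ψ k) := by
    intro k hk
    by_cases h : ∃ j, 1 ≤ j ∧ j ≤ N ∧ w k ⊆ c j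
    · have : ψ k = h.choose := dif_pos h
      rw [this]
      exact h.choose_spec
    · exact absurd (dif_neg h) hk
  have hψ0 : ∀ k, (w k).Nonempty → ψ k = 0 → ∀ i, 1 < i → i < N → Disjoint (w k) (c i) := by
    intro k hne hk
    by_cases h : ∃ j, 1 ≤ j ∧ j ≤ N ∧ w k ⊆ c j
    · have h1 : ψ k = h.choose := dif_pos h
      have h2 := h.choose_spec.1
      omega
    · rcases hloc (w k) (wd1 k) with ⟨j, hj⟩ | h'
      · exfalso
        obtain ⟨x, hx⟩ := hne.mono hj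
        refine h ⟨j, ?_, ?_, hj⟩
        · by_contra h'
          have h0 : j = 0 := by omega
          rw [h0, T.zero] at hx
          exact hx
        · by_contra h'
          rw [T.big j (by omega)] at hx
          exact hx
      · exact h'
  -- Lebesgue number
  let f : Option ℕ → Set X := fun o => o.elim (c m) w
  obtain ⟨δ₂, hδ₂, hleb⟩ := lebesgue_number_lemma_of_metric (c := f) (isCompact_univ (X := X))
    (fun o => by
      cases o with
      | none => exact T.op m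
      | some k => exact w1 k) (fun x _ => by
      by_cases h : x ∈ c m
      · exact mem_iUnion.2 ⟨none, h⟩
      · obtain ⟨k, hk⟩ := mem_iUnion.1 (w4 h)
        exact mem_iUnion.2 ⟨some k, hk⟩)
  obtain ⟨n, U, G, u1, u2, u3, hG, hadj, hne⟩ := tree_cover hT (lt_min hε hδ₂)
  have ud1 : ∀ i, diam (U i) < ε := fun i => (u2 i).trans_le (min_le_left _ _)
  have ud2 : ∀ i, diam (U i) < δ₂ := fun i => (u2 i).trans_le (min_le_right _ _)
  have hUf : ∀ t, U t ⊆ c m ∨ ∃ k, U t ⊆ w k := by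
    intro t
    obtain ⟨x, hx⟩ := hne t
    obtain ⟨o, ho⟩ := hleb x (mem_univ x)
    have h : U t ⊆ f o := fun y hy => ho (mem_ball.2 ((dist_le_diam hy hx).trans_lt (ud2 t)))
    cases o with
    | none => exact Or.inl h
    | some k => exact Or.inr ⟨k, h⟩
  let κ : Fin n → ℕ := fun t => if h : ∃ k, U t ⊆ w k then h.choose else 0
  have hκ : ∀ t, ¬ U t ⊆ c m → U t ⊆ w (κ t) := by
    intro t ht
    have h : ∃ k, U t ⊆ w k := (hUf t).resolve_left ht
    have : κ t = h.choose := dif_pos h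
    rw [this]
    exact h.choose_spec
  let lam : Fin n → ℕ := fun t => if U t ⊆ c m then m else ψ (κ t)
  let phi : Fin n → ℤ := fun t => if U t ⊆ c m then 0 else κ t
  have hlam1 : ∀ t, U t ⊆ c m → lam t = m := fun t h => if_pos h
  have hlam2 : ∀ t, ¬ U t ⊆ c m → lam t = ψ (κ t) := fun t h => if_neg h
  have hphi2 : ∀ t, ¬ U t ⊆ c m → phi t = κ t := fun t h => if_neg h
  have hlamsub : ∀ t, lam t ≠ 0 → U t ⊆ c (lam t) := by
    intro t ht
    by_cases h : U t ⊆ c m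
    · rw [hlam1 t h]; exact h
    · rw [hlam2 t h] at ht ⊢
      exact (hκ t h).trans (hψ _ ht).2.2
  have hlamN : ∀ t, lam t ≤ N := by
    intro t
    by_cases h : U t ⊆ c m
    · rw [hlam1 t h]; omega
    · rw [hlam2 t h]
      by_cases h' : ψ (κ t) = 0
      · omega
      · exact (hψ _ h').2.1
  have hlam0 : ∀ t, lam t = 0 → ∀ i, 1 < i → i < N → Disjoint (U t) (c i) := by
    intro t ht i h1 h2
    by_cases h : U t ⊆ c m
    · rw [hlam1 t h] at ht
      omega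
    · rw [hlam2 t h] at ht
      exact (hψ0 _ ((hne t).mono (hκ t h)) ht i h1 h2).mono_left (hκ t h)
  have hlip : ∀ v w, (U v ∩ U w).Nonempty → lam v ≠ 0 → lam w ≠ 0 → lam v ≤ lam w + 1 := by
    rintro v w ⟨x, hxv, hxw⟩ hv hw
    by_contra h
    exact Set.disjoint_left.1 (T.disj (lam w) (lam v) (by omega)) (hlamsub w hw hxw)
      (hlamsub v hv hxv)
  have hnJ : ∀ v, ¬ InJ m (lam v) → ∀ w, (U v ∩ U w).Nonempty → ¬ U w ⊆ c m := by
    rintro v hv w ⟨x, hxv, hxw⟩ hw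
    by_cases h0 : lam v = 0
    · exact Set.disjoint_left.1 (hlam0 v h0 m (by omega) (by omega)) hxv (hw hxw)
    · have h1 := hlamsub v h0 hxv
      have h2 := hw hxw
      rcases lt_or_ge (m + 1) (lam v) with h | h
      · exact Set.disjoint_left.1 (T.disj m (lam v) h) h2 h1
      · rcases lt_or_ge (lam v + 1) m with h' | h'
        · exact Set.disjoint_left.1 (T.disj (lam v) m h') h1 h2
        · exact hv ⟨h', h⟩
  have hnJ' : ∀ v, ¬ InJ m (lam v) → ¬ U v ⊆ c m := by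
    intro v hv h
    refine hv ?_
    rw [hlam1 v h]
    exact ⟨by omega, by omega⟩
  have D : Data G lam phi (fun k => ψ k.toNat) N m := by
    refine ⟨hm, hmN, hlamN, fun v w h => hlip v w ((hadj v w).1 h).2, fun v w h hv => ?_,
      fun v hv => ?_, fun v w h hv => ?_, fun v w h hv => ?_⟩
    · by_contra hcon
      obtain ⟨x, hxv, hxw⟩ := ((hadj v w).1 h).2
      have h1 := hlamN w
      exact Set.disjoint_left.1 (hlam0 v hv (lam w) (by omega) (by omega)) hxv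
        (hlamsub w (by omega) hxw)
    · have h1 := hnJ' v hv
      rw [hlam2 v h1, hphi2 v h1, Int.toNat_natCast]
    · have h1 := hnJ' v hv
      have h2 := hnJ v hv w ((hadj v w).1 h).2
      obtain ⟨x, hxv, hxw⟩ := ((hadj v w).1 h).2
      have h3 := hκ v h1 hxv
      have h4 := hκ w h2 hxw
      rw [hphi2 v h1, hphi2 w h2]
      constructor
      · by_contra h5
        exact Set.disjoint_left.1 (w5 (κ w) (κ v) (by omega)) h4 h3
      · by_contra h5
        exact Set.disjoint_left.1 (w5 (κ v) (κ w) (by omega)) h3 h4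
    · have h2 := hnJ v hv w ((hadj v w).1 h).2
      rw [hlam2 w h2, hphi2 w h2, Int.toNat_natCast]
  obtain ⟨H, μ, c1, c2, c3, c4⟩ := good hG D
  refine conclusion_of_free hε u1 ud1 u3 hne H μ (fun v hv w hw h => ?_) (fun v hv w hw h => ?_)
    (fun i => ?_) (fun x => ?_)
  · by_cases hvw : v = w
    · rw [hvw]; omega
    · exact c1 v hv w hw ((hadj v w).2 ⟨hvw, h⟩)
  · exact c2 v hv w hw ((hadj v w).2 ⟨fun h' => hw (h' ▸ hv), h⟩)
  · by_cases h : ∃ v ∈ H, μ v = i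
    · obtain ⟨v, hv, hvi⟩ := h
      rcases c3 with ⟨c3, c3'⟩ | ⟨c3, c3'⟩
      · refine ⟨c (lam v), (T.di _).trans (by linarith), fun w hw hwi => ?_⟩
        rw [c3' v hv w hw (hvi.trans hwi.symm)]
        exact hlamsub w (c3 w hw)
      · refine ⟨w (κ v), wd2 _, fun u hu hui => ?_⟩
        have h1 := hnJ' v (c3 v hv)
        have h2 := hnJ' u (c3 u hu)
        have h3 := c3' v hv u hu (hvi.trans hui.symm)
        rw [hphi2 v h1, hphi2 u h2] at h3
        have h4 : κ v = κ u := by exact_mod_cast h3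
        rw [h4]
        exact hκ u h2
    · push Not at h
      exact ⟨∅, by simpa using hε, fun v hv hvi => absurd hvi (h v hv)⟩
  · have key : ∀ j, (∃ y ∈ c j, dist x y < ε / 2) → (∃ v ∈ H, lam v = j) → j ≠ 0 →
        ∃ v ∈ H, ∃ z ∈ U v, dist x z < ε := by
      rintro j ⟨y, hy, hxy⟩ ⟨v, hv, rfl⟩ hj
      obtain ⟨z, hz⟩ := hne v
      refine ⟨v, hv, z, hz, ?_⟩
      have h1 := dist_le_diam hy (hlamsub v hj hz)
      have h2 := T.di (lam v)
      have h3 := dist_triangle x y z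
      linarith
    rcases c4 with c4 | c4 | c4
    · obtain ⟨t, ht⟩ := mem_iUnion.1 (u3 ▸ mem_univ x : x ∈ ⋃ i, U i)
      exact ⟨t, c4 ▸ mem_univ t, x, ht, by simpa using hε⟩
    · obtain ⟨j, h1, h2, h3⟩ := hleft x
      exact key j h3 (c4 j h1 h2) (by omega)
    · obtain ⟨j, h1, h2, h3⟩ := hright x
      exact key j h3 (c4 j h1 h2) (by omega)

end Pool.Agent.Lib.MP_385b3e_gt
end

section

set_option autoImplicit false

namespace Pool.Agent.Lib.MP_385b3e_gt

open Set Metric Filter Topology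

variable {X : Type*} [MetricSpace X] [CompactSpace X]

theorem main [ConnectedSpace X] (hT : TreeHyp X) (hX : ChainHyp X) {ε : ℝ} (hε : 0 < ε) :
    Concl X ε := by
  classical
  rcases subsingleton_or_nontrivial X with hsub | hnt
  · -- one-point space
    obtain ⟨x₀⟩ := (inferInstance : Nonempty X)
    refine ⟨1, 0, fun _ => univ, id, fun _ => isOpen_univ, fun _ => ?_, ?_,
      Function.injective_id, fun i j => ?_, fun k hk => ?_, fun x => ⟨0, ?_⟩⟩
    · rw [diam_subsingleton (Set.subsingleton_of_subsingleton)]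
      exact hε
    · exact eq_univ_of_forall fun x => mem_iUnion.2 ⟨0, mem_univ x⟩
    · constructor
      · intro _
        have := i.2
        have := j.2
        omega
      · intro _
        exact ⟨x₀, mem_univ _, mem_univ _⟩
    · exact absurd ⟨k, rfl⟩ hk
    · rw [infDist_zero_of_mem (mem_univ x)]
      exact hε
  · by_cases hdec : ∀ A B : Set X, IsClosed A → IsClosed B → IsPreconnected A →
        IsPreconnected B → A ∪ B = univ → A = univ ∨ B = univ
    · obtain ⟨N, m, c, T, h1, h2, h3, h4, h5⟩ := exists_twosided hX hdec (half_pos hε)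
      exact concl_of_twosided hT hX hε T h1 h2 h3 h4 h5
    · push Not at hdec
      obtain ⟨A, B, hA, hB, hAc, hBc, hAB, hAu, hBu⟩ := hdec
      have hAne : A.Nonempty := by
        rw [nonempty_iff_ne_empty]
        rintro rfl
        rw [empty_union] at hAB
        exact hBu hAB
      have hBne : B.Nonempty := by
        rw [nonempty_iff_ne_empty]
        rintro rfl
        rw [union_empty] at hAB
        exact hAu hAB
      exact concl_decomposable hT hX hA ⟨hAne, hAc⟩ hAu hB ⟨hBne, hBc⟩ hBu hAB hε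

end Pool.Agent.Lib.MP_385b3e_gt
end
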