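import Mathlib

section

set_option autoImplicit false

namespace Pool.Agent.Lib.MP_385b3e_gt

open Set SimpleGraph

variable {V : Type*} {G : SimpleGraph V}

/-- Connectedness of a set of vertices inside `G`. -/
def ConnIn (G : SimpleGraph V) (S : Set V) : Prop :=
  ∀ u ∈ S, ∀ v ∈ S, ∃ p : G.Walk u v, ∀ w ∈ p.support, w ∈ S

/-- In an acyclic graph a vertex outside a connected set has at most one neighbour in it. -/
theorem unique_nbr (hG : G.IsAcyclic) {S : Set V} (hS : ConnIn G S) {s a b : V} (hs : s ∉ S)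
    (ha : a ∈ S) (hb : b ∈ S) (hsa : G.Adj s a) (hsb : G.Adj s b) : a = b := by
  classical
  by_contra hab
  obtain ⟨p, hp⟩ := hS a ha b hb
  let q : G.Walk a b := Walk.cons hsa.symm (Walk.cons hsb Walk.nil)
  have hq : q.IsPath := by
    simp only [q, Walk.cons_isPath_iff, Walk.support_cons, Walk.support_nil, List.mem_cons,
      List.not_mem_nil, or_false, not_or]
    refine ⟨⟨by simp, fun h => hs (h ▸ hb)⟩, fun h => hs (h ▸ ha), hab⟩
  have := (hG.subsingleton_path a b).elim p.toPath ⟨q, hq⟩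
  have hsq : s ∈ (p.toPath : G.Walk a b).support := by
    rw [this]
    simp [q]
  exact hs (hp s (Walk.support_toPath_subset_support p hsq))

theorem connIn_insert {S : Set V} (hS : ConnIn G S) {s s' : V} (hs' : s' ∈ S)
    (h : G.Adj s' s) : ConnIn G (insert s S) := by
  have key : ∀ u ∈ S, ∃ p : G.Walk u s, ∀ w ∈ p.support, w ∈ insert s S := by
    intro u hu
    obtain ⟨p, hp⟩ := hS u hu s' hs'
    refine ⟨p.concat h, fun w hw => ?_⟩
    rw [Walk.support_concat, List.mem_append, List.mem_singleton] at hw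
    rcases hw with hw | rfl
    · exact Or.inr (hp w hw)
    · exact Or.inl rfl
  rintro u (rfl | hu) v (rfl | hv)
  · exact ⟨Walk.nil, fun w hw => by simp at hw; exact Or.inl hw⟩
  · obtain ⟨p, hp⟩ := key v hv
    exact ⟨p.reverse, fun w hw => hp w (by simpa using hw)⟩
  · exact key u hu
  · obtain ⟨p, hp⟩ := hS u hu v hv
    exact ⟨p, fun w hw => Or.inr (hp w hw)⟩

/-- Retraction of a tree onto a connected set of vertices. -/
theorem exists_retraction [Finite V] (hG : G.IsTree) (S : Set V) (hne : S.Nonempty)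
    (hS : ConnIn G S) : ∃ π : V → V, (∀ v, π v ∈ S) ∧ (∀ s ∈ S, π s = s) ∧
      (∀ v w, G.Adj v w → π v = π w ∨ (v ∈ S ∧ w ∈ S)) ∧
      (∀ v, v ∉ S → ∃ w, w ∉ S ∧ G.Adj (π v) w) := by
  classical
  induction hn : Sᶜ.ncard using Nat.strong_induction_on generalizing S with
  | _ n ih =>
    by_cases hSu : S = univ
    · refine ⟨id, fun v => hSu ▸ mem_univ v, fun _ _ => rfl, fun v w _ => ?_, fun v hv => ?_⟩
      · exact Or.inr ⟨hSu ▸ mem_univ v, hSu ▸ mem_univ w⟩
      · exact absurd (hSu ▸ mem_univ v) hv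
    · obtain ⟨v, hv⟩ := (ne_univ_iff_exists_notMem S).1 hSu
      obtain ⟨u, hu⟩ := hne
      obtain ⟨p⟩ := hG.connected.preconnected u v
      obtain ⟨d, -, hd1, hd2⟩ := p.exists_boundary_dart S hu hv
      set s' := d.fst with hs'
      set s := d.snd with hs
      have hadj : G.Adj s' s := d.adj
      have hlt : (insert s S)ᶜ.ncard < n := by
        rw [← hn]
        refine ncard_lt_ncard ?_ (toFinite _)
        refine ⟨compl_subset_compl.2 (subset_insert s S), fun h => ?_⟩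
        exact h hd2 (mem_insert s S)
      obtain ⟨π, h1, h2, h3, h4⟩ := ih _ hlt (insert s S) ⟨s, mem_insert s S⟩
        (connIn_insert hS hd1 hadj) rfl
      refine ⟨fun v => if π v = s then s' else π v, fun v => ?_, fun t ht => ?_, fun a b hab => ?_,
        fun a ha => ?_⟩
      · dsimp only
        split_ifs with h
        · exact hd1
        · exact (h1 v).resolve_left h
      · have : π t = t := h2 t (mem_insert_of_mem s ht)
        dsimp only
        rw [this, if_neg]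
        rintro rfl
        exact hd2 ht
      · dsimp only
        rcases h3 a b hab with h | ⟨ha, hb⟩
        · left
          rw [h]
        · rcases ha with ha | ha <;> rcases hb with hb | hb
          · exact absurd hab (by rw [ha, hb]; exact G.irrefl)
          · left
            have : b = s' := unique_nbr hG.isAcyclic hS hd2 hb hd1 (ha ▸ hab) hadj.symm
            have e1 : π a = s := by rw [ha]; exact h2 s (mem_insert s S)
            have e2 : π b = s' := by rw [this]; exact h2 s' (mem_insert_of_mem s hd1)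
            rw [e1, e2, if_pos rfl]
            split_ifs <;> rfl
          · left
            have : a = s' := unique_nbr hG.isAcyclic hS hd2 ha hd1 (hb ▸ hab.symm) hadj.symm
            have e1 : π b = s := by rw [hb]; exact h2 s (mem_insert s S)
            have e2 : π a = s' := by rw [this]; exact h2 s' (mem_insert_of_mem s hd1)
            rw [e1, e2, if_pos rfl]
            split_ifs <;> rfl
          · exact Or.inr ⟨ha, hb⟩
      · dsimp only
        by_cases has : a = s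
        · have e1 : π a = s := by rw [has]; exact h2 s (mem_insert s S)
          rw [e1, if_pos rfl]
          exact ⟨s, hd2, hadj⟩
        · obtain ⟨w, hw, hw'⟩ := h4 a (by
            rintro (h | h)
            · exact has h
            · exact ha h)
          split_ifs with h
          · exact ⟨s, hd2, hadj⟩
          · exact ⟨w, fun h' => hw (mem_insert_of_mem s h'), hw'⟩

end Pool.Agent.Lib.MP_385b3e_gt
end

section

set_option autoImplicit false

namespace Pool.Agent.Lib.MP_385b3e_gt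

open Set SimpleGraph

variable {V : Type*} {G : SimpleGraph V}

/-- `x ∈ {m-1, m, m+1}`. -/
def InJ (m x : ℕ) : Prop := m ≤ x + 1 ∧ x ≤ m + 1

/-- The combinatorial data on the nerve of a fine cover. -/
structure Data (G : SimpleGraph V) (lam : V → ℕ) (phi : V → ℤ) (psi : ℤ → ℕ) (N m : ℕ) : Prop where
  hm : 3 ≤ m
  hN : m + 2 ≤ N
  le : ∀ v, lam v ≤ N
  lip : ∀ v w, G.Adj v w → lam v ≠ 0 → lam w ≠ 0 → lam v ≤ lam w + 1
  zero : ∀ v w, G.Adj v w → lam v = 0 → lam w = 0 ∨ lam w = 1 ∨ lam w = N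
  psi_eq : ∀ v, ¬ InJ m (lam v) → lam v = psi (phi v)
  plip : ∀ v w, G.Adj v w → ¬ InJ m (lam v) → phi v ≤ phi w + 1 ∧ phi w ≤ phi v + 1
  pnb : ∀ v w, G.Adj v w → ¬ InJ m (lam v) → lam w = psi (phi w)

theorem Data.reflect {lam : V → ℕ} {phi : V → ℤ} {psi : ℤ → ℕ} {N m : ℕ}
    (D : Data G lam phi psi N m) : Data G lam (fun v => - phi v) (fun k => psi (-k)) N m where
  hm := D.hm
  hN := D.hN
  le := D.le
  lip := D.lip
  zero := D.zero
  psi_eq v hv := by rw [neg_neg]; exact D.psi_eq v hv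
  plip v w h hv := by have := D.plip v w h hv; omega
  pnb v w h hv := by rw [neg_neg]; exact D.pnb v w h hv

/-- The conclusion of the combinatorial lemma: a free dense tube. -/
def Good (G : SimpleGraph V) (lam : V → ℕ) (phi : V → ℤ) (N m : ℕ) : Prop :=
  ∃ (H : Set V) (μ : V → ℕ), (∀ v ∈ H, ∀ w ∈ H, G.Adj v w → μ v ≤ μ w + 1) ∧
    (∀ v ∈ H, ∀ w, w ∉ H → G.Adj v w → μ v = 0) ∧
    (((∀ v ∈ H, lam v ≠ 0) ∧ ∀ v ∈ H, ∀ w ∈ H, μ v = μ w → lam v = lam w) ∨
      ((∀ v ∈ H, ¬ InJ m (lam v)) ∧ ∀ v ∈ H, ∀ w ∈ H, μ v = μ w → phi v = phi w)) ∧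
    (H = univ ∨ (∀ j, 1 ≤ j → j + 2 ≤ m → ∃ v ∈ H, lam v = j) ∨
      (∀ j, m + 2 ≤ j → j ≤ N → ∃ v ∈ H, lam v = j))

theorem Good.of_reflect {lam : V → ℕ} {phi : V → ℤ} {N m : ℕ}
    (h : Good G lam (fun v => - phi v) N m) : Good G lam phi N m := by
  obtain ⟨H, μ, h1, h2, h3, h4⟩ := h
  refine ⟨H, μ, h1, h2, ?_, h4⟩
  rcases h3 with h3 | ⟨h3, h3'⟩
  · exact Or.inl h3
  · refine Or.inr ⟨h3, fun v hv w hw h => ?_⟩
    have : - phi v = - phi w := h3' v hv w hw h
    omega

/-- Component of the set of vertices with `λ ∉ J`. -/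
def Comp (G : SimpleGraph V) (lam : V → ℕ) (m : ℕ) (v₀ : V) : Set V :=
  {w | ∃ p : G.Walk v₀ w, ∀ x ∈ p.support, ¬ InJ m (lam x)}

section CompLemmas

variable {lam : V → ℕ} {m : ℕ} {v₀ : V}

theorem Comp.self (h : ¬ InJ m (lam v₀)) : v₀ ∈ Comp G lam m v₀ :=
  ⟨Walk.nil, fun x hx => by
    simp only [Walk.support_nil, List.mem_singleton] at hx
    exact hx ▸ h⟩

theorem Comp.not_inJ {w : V} (h : w ∈ Comp G lam m v₀) : ¬ InJ m (lam w) := by
  obtain ⟨p, hp⟩ := h
  exact hp w p.end_mem_support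

theorem Comp.step {u w : V} (h : u ∈ Comp G lam m v₀) (huw : G.Adj u w)
    (hw : ¬ InJ m (lam w)) : w ∈ Comp G lam m v₀ := by
  obtain ⟨p, hp⟩ := h
  refine ⟨p.concat huw, fun x hx => ?_⟩
  rw [Walk.support_concat, List.mem_append, List.mem_singleton] at hx
  rcases hx with hx | rfl
  · exact hp x hx
  · exact hw

theorem Comp.of_mem_support [DecidableEq V] {w x : V} (p : G.Walk v₀ w)
    (hp : ∀ x ∈ p.support, ¬ InJ m (lam x)) (hx : x ∈ p.support) : x ∈ Comp G lam m v₀ :=
  ⟨p.takeUntil x hx, fun y hy => hp y (Walk.support_takeUntil_subset_support p hx hy)⟩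

theorem Comp.connIn : ConnIn G (Comp G lam m v₀) := by
  classical
  rintro u ⟨p, hp⟩ v ⟨q, hq⟩
  refine ⟨p.reverse.append q, fun w hw => ?_⟩
  rw [Walk.mem_support_append_iff] at hw
  rcases hw with hw | hw
  · rw [Walk.support_reverse, List.mem_reverse] at hw
    exact Comp.of_mem_support p hp hw
  · exact Comp.of_mem_support q hq hw

theorem Comp.symm_trans {r v : V} (h1 : r ∈ Comp G lam m v) (h2 : r ∈ Comp G lam m v₀) :
    v ∈ Comp G lam m v₀ := by
  obtain ⟨p, hp⟩ := h1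
  obtain ⟨q, hq⟩ := h2
  refine ⟨q.append p.reverse, fun x hx => ?_⟩
  rw [Walk.mem_support_append_iff] at hx
  rcases hx with hx | hx
  · exact hq x hx
  · rw [Walk.support_reverse, List.mem_reverse] at hx
    exact hp x hx

theorem Comp.trans {r v : V} (h1 : r ∈ Comp G lam m v) (h2 : v ∈ Comp G lam m v₀) :
    r ∈ Comp G lam m v₀ := by
  obtain ⟨p, hp⟩ := h1
  obtain ⟨q, hq⟩ := h2
  refine ⟨q.append p, fun x hx => ?_⟩
  rw [Walk.mem_support_append_iff] at hx
  rcases hx with hx | hx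
  · exact hq x hx
  · exact hp x hx

end CompLemmas

/-- Boundary edge inside a connected set. -/
theorem conn_boundary {S : Set V} (hS : ConnIn G S) {R : Set V} {u z : V} (hu : u ∈ S)
    (hz : z ∈ S) (huR : u ∈ R) (hzR : z ∉ R) :
    ∃ x y, x ∈ S ∧ y ∈ S ∧ x ∈ R ∧ y ∉ R ∧ G.Adj x y := by
  obtain ⟨p, hp⟩ := hS u hu z hz
  obtain ⟨d, hd, h1, h2⟩ := p.exists_boundary_dart R huR hzR
  exact ⟨d.fst, d.snd, hp _ (p.dart_fst_mem_support_of_mem_darts hd),
    hp _ (p.dart_snd_mem_support_of_mem_darts hd), h1, h2, d.adj⟩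

section Main

variable {lam : V → ℕ} {phi : V → ℤ} {psi : ℤ → ℕ} {N m : ℕ}

theorem cover_up (D : Data G lam phi psi N m) {S : Set V} (hS : ConnIn G S)
    (hJ : ∀ w ∈ S, ¬ InJ m (lam w)) (P : V → Prop)
    (hP : ∀ x ∈ S, ∀ y ∈ S, G.Adj x y → P x → ¬ P y → lam y = 0) {u z : V} (hu : u ∈ S)
    (huP : P u) (hlu : lam u = m + 2) (hz : z ∈ S) (hlz : lam z = 0) :
    ∀ j, m + 2 ≤ j → j ≤ N → ∃ v ∈ S, P v ∧ lam v = j := by
  intro j hj hjN
  by_contra hcon
  push Not at hcon
  have huj : lam u ≠ j := hcon u hu huP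
  obtain ⟨x, y, hxS, hyS, hxR, hyR, hadj⟩ := conn_boundary hS
    (R := {x | P x ∧ m + 2 ≤ lam x ∧ lam x < j}) hu hz ⟨huP, by omega, by omega⟩
    (fun h => by have := h.2.1; omega)
  obtain ⟨hxP, hx1, hx2⟩ := hxR
  have hy0 : lam y ≠ 0 := by
    intro h0
    have := D.zero y x hadj.symm h0
    omega
  have hyP : P y := by
    by_contra h
    exact hy0 (hP x hxS y hyS hadj hxP h)
  have hlip := D.lip x y hadj (by omega) hy0
  have hlip' := D.lip y x hadj.symm hy0 (by omega)
  have hyJ := hJ y hyS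
  have hyj := hcon y hyS hyP
  unfold InJ at hyJ
  exact hyR ⟨hyP, by omega, by omega⟩

theorem cover_down (D : Data G lam phi psi N m) {S : Set V} (hS : ConnIn G S)
    (hJ : ∀ w ∈ S, ¬ InJ m (lam w)) (P : V → Prop)
    (hP : ∀ x ∈ S, ∀ y ∈ S, G.Adj x y → P x → ¬ P y → lam y = 0) {u z : V} (hu : u ∈ S)
    (huP : P u) (hlu : lam u + 2 = m) (hz : z ∈ S) (hlz : lam z = 0) :
    ∀ j, 1 ≤ j → j + 2 ≤ m → ∃ v ∈ S, P v ∧ lam v = j := by
  intro j hj hjN
  by_contra hcon
  push Not at hcon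
  have huj : lam u ≠ j := hcon u hu huP
  have hmN := D.hN
  obtain ⟨x, y, hxS, hyS, hxR, hyR, hadj⟩ := conn_boundary hS
    (R := {x | P x ∧ j < lam x ∧ lam x + 2 ≤ m}) hu hz ⟨huP, by omega, by omega⟩
    (fun h => by have := h.2.1; omega)
  obtain ⟨hxP, hx1, hx2⟩ := hxR
  have hy0 : lam y ≠ 0 := by
    intro h0
    have := D.zero y x hadj.symm h0
    omega
  have hyP : P y := by
    by_contra h
    exact hy0 (hP x hxS y hyS hadj hxP h)
  have hlip := D.lip x y hadj (by omega) hy0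
  have hlip' := D.lip y x hadj.symm hy0 (by omega)
  have hyJ := hJ y hyS
  have hyj := hcon y hyS hyP
  unfold InJ at hyJ
  exact hyR ⟨hyP, by omega, by omega⟩

/-- Exits of a component. -/
theorem exit_lam (D : Data G lam phi psi N m) {u w : V} (hu : ¬ InJ m (lam u))
    (hw : InJ m (lam w)) (h : G.Adj u w) : lam u = m + 2 ∨ lam u + 2 = m := by
  have hm := D.hm
  have hN := D.hN
  have hw' := hw
  unfold InJ at hu hw
  have hw0 : lam w ≠ 0 := by omega
  have hu0 : lam u ≠ 0 := by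
    intro h0
    have := D.zero u w h h0
    omega
  have h1 := D.lip u w h hu0 hw0
  have h2 := D.lip w u h.symm hw0 hu0
  omega

theorem phi_ivt {S : Set V} (hS : ConnIn G S) (D : Data G lam phi psi N m)
    (hJ : ∀ w ∈ S, ¬ InJ m (lam w)) {u z : V} (hu : u ∈ S) (hz : z ∈ S) {k : ℤ}
    (h1 : phi u ≤ k) (h2 : k ≤ phi z) : ∃ x ∈ S, phi x = k := by
  rcases eq_or_lt_of_le h1 with h1 | h1
  · exact ⟨u, hu, h1⟩
  · obtain ⟨x, y, hxS, hyS, hxR, hyR, hadj⟩ := conn_boundary hS (R := {x | phi x < k}) hu hz h1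
      (fun h => by
        have : phi z < k := h
        omega)
    have hx : phi x < k := hxR
    have hy : ¬ phi y < k := hyR
    have := D.plip x y hadj (hJ x hxS)
    exact ⟨y, hyS, by omega⟩

/-- Exits of a component have extreme values of `phi`. -/
theorem exit_phi (D : Data G lam phi psi N m) {v₀ : V} {a b : ℤ}
    (ha : ∃ z ∈ Comp G lam m v₀, phi z = a) (ha' : ∀ z ∈ Comp G lam m v₀, a ≤ phi z)
    (hb : ∃ z ∈ Comp G lam m v₀, phi z = b) (hb' : ∀ z ∈ Comp G lam m v₀, phi z ≤ b)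
    {u w : V} (hu : u ∈ Comp G lam m v₀) (hw : w ∉ Comp G lam m v₀) (h : G.Adj u w) :
    phi u = a ∨ phi u = b := by
  have hwJ : InJ m (lam w) := by
    by_contra h'
    exact hw (Comp.step hu h h')
  obtain ⟨za, hza, rfl⟩ := ha
  obtain ⟨zb, hzb, rfl⟩ := hb
  have h1 := D.plip u w h (Comp.not_inJ hu)
  have h2 := D.pnb u w h (Comp.not_inJ hu)
  have h3 := ha' u hu
  have h4 := hb' u hu
  by_contra hcon
  obtain ⟨x, hx, hxw⟩ := phi_ivt Comp.connIn D (fun w hw => Comp.not_inJ hw) hza hzb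
    (k := phi w) (by omega) (by omega)
  have h5 := D.psi_eq x (Comp.not_inJ hx)
  rw [hxw, ← h2] at h5
  exact Comp.not_inJ hx (h5 ▸ hwJ)

/-- Case 1: all exits are on the lower side. -/
theorem good_of_exits_a (D : Data G lam phi psi N m) (hG : G.Connected) {v₀ : V}
    (h0 : lam v₀ = 0) {a : ℤ} (ha' : ∀ z ∈ Comp G lam m v₀, a ≤ phi z)
    (hex : ∀ u ∈ Comp G lam m v₀, ∀ w, w ∉ Comp G lam m v₀ → G.Adj u w → phi u = a) :
    Good G lam phi N m := by
  have hm := D.hm
  have hJ0 : ¬ InJ m (lam v₀) := by unfold InJ; omega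
  have hv₀ : v₀ ∈ Comp G lam m v₀ := Comp.self hJ0
  refine ⟨Comp G lam m v₀, fun v => (phi v - a).toNat, fun v hv w hw h => ?_,
    fun v hv w hw h => ?_, Or.inr ⟨fun v hv => Comp.not_inJ hv, fun v hv w hw h => ?_⟩, ?_⟩
  · have h1 := D.plip v w h (Comp.not_inJ hv)
    have h2 := ha' v hv
    have h3 := ha' w hw
    dsimp only
    omega
  · have := hex v hv w hw h
    dsimp only
    omega
  · have h2 := ha' v hv
    have h3 := ha' w hw
    dsimp only at h
    omega
  · by_cases hS : Comp G lam m v₀ = univ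
    · exact Or.inl hS
    · right
      obtain ⟨v, hv⟩ := (ne_univ_iff_exists_notMem _).1 hS
      obtain ⟨p⟩ := hG.preconnected v₀ v
      obtain ⟨d, -, hd1, hd2⟩ := p.exists_boundary_dart _ hv₀ hv
      have hwJ : InJ m (lam d.snd) := by
        by_contra h'
        exact hd2 (Comp.step hd1 d.adj h')
      rcases exit_lam D (Comp.not_inJ hd1) hwJ d.adj with h | h
      · right
        intro j hj hjN
        obtain ⟨v, hv, -, hvj⟩ := cover_up D Comp.connIn (fun w hw => Comp.not_inJ hw)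
          (fun _ => True) (fun _ _ _ _ _ _ h => absurd trivial h) hd1 trivial h hv₀ h0 j hj hjN
        exact ⟨v, hv, hvj⟩
      · left
        intro j hj hjN
        obtain ⟨v, hv, -, hvj⟩ := cover_down D Comp.connIn (fun w hw => Comp.not_inJ hw)
          (fun _ => True) (fun _ _ _ _ _ _ h => absurd trivial h) hd1 trivial h hv₀ h0 j hj hjN
        exact ⟨v, hv, hvj⟩

/-- Case 2: the main case. -/
theorem good_of_side [Finite V] (D : Data G lam phi psi N m) {v₀ : V}
    (h0 : lam v₀ = 0) {a b : ℤ}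
    (ha : ∃ z ∈ Comp G lam m v₀, phi z = a) (ha' : ∀ z ∈ Comp G lam m v₀, a ≤ phi z)
    (hb : ∃ z ∈ Comp G lam m v₀, phi z = b) (hb' : ∀ z ∈ Comp G lam m v₀, phi z ≤ b)
    {π : V → V} (hπS : ∀ v, π v ∈ Comp G lam m v₀) (hπ1 : ∀ s ∈ Comp G lam m v₀, π s = s)
    (hπ2 : ∀ v w, G.Adj v w → π v = π w ∨ (v ∈ Comp G lam m v₀ ∧ w ∈ Comp G lam m v₀))
    (hπ3 : ∀ v, v ∉ Comp G lam m v₀ → ∃ w, w ∉ Comp G lam m v₀ ∧ G.Adj (π v) w)
    (hQ : ∀ v, v ∉ Comp G lam m v₀ → phi (π v) = b → lam v ≠ 0)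
    (hexit : ∃ u ∈ Comp G lam m v₀, ∃ w, w ∉ Comp G lam m v₀ ∧ G.Adj u w ∧ phi u = b) :
    Good G lam phi N m := by
  classical
  have hm := D.hm
  have hmN := D.hN
  have hJ0 : ¬ InJ m (lam v₀) := by unfold InJ; omega
  have hv₀ : v₀ ∈ Comp G lam m v₀ := Comp.self hJ0
  obtain ⟨u, huS, w, hwS, huw, hub⟩ := hexit
  have hwJ : InJ m (lam w) := by
    by_contra h'
    exact hwS (Comp.step huS huw h')
  have hlu := exit_lam D (Comp.not_inJ huS) hwJ huw
  -- the largest value of `phi` at a vertex with `lam = 0`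
  obtain ⟨z₀, ⟨hz₀S, hz₀0⟩, hz₀max⟩ := Set.exists_max_image
    {z | z ∈ Comp G lam m v₀ ∧ lam z = 0} phi (Set.toFinite _) ⟨v₀, hv₀, h0⟩
  set q := phi z₀ with hq
  have hqb : q < b := by
    have h1 := hb' z₀ hz₀S
    rcases eq_or_lt_of_le h1 with h | h
    · exfalso
      have e1 := D.psi_eq z₀ (Comp.not_inJ hz₀S)
      have e2 := D.psi_eq u (Comp.not_inJ huS)
      rw [h, ← hub, ← e2] at e1
      omega
    · exact h
  have haq : a ≤ q := ha' z₀ hz₀S
  have hlam0 : ∀ v, q < phi (π v) → lam v ≠ 0 := by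
    intro v hv
    by_cases hvS : v ∈ Comp G lam m v₀
    · rw [hπ1 v hvS] at hv
      intro h
      have := hz₀max v ⟨hvS, h⟩
      omega
    · obtain ⟨x, hx, hxadj⟩ := hπ3 v hvS
      rcases exit_phi D ha ha' hb hb' (hπS v) hx hxadj with h | h
      · omega
      · exact hQ v hvS h
  have hexitH : ∀ v x, q < phi (π v) → ¬ q < phi (π x) → G.Adj v x →
      v ∈ Comp G lam m v₀ ∧ x ∈ Comp G lam m v₀ ∧ phi v = q + 1 ∧ phi x = q := by
    intro v x hv hx hvx
    rcases hπ2 v x hvx with h | ⟨h1, h2⟩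
    · rw [h] at hv
      exact absurd hv hx
    · rw [hπ1 v h1] at hv
      rw [hπ1 x h2] at hx
      have := D.plip v x hvx (Comp.not_inJ h1)
      exact ⟨h1, h2, by omega, by omega⟩
  have hpsiq : psi q = 0 := by
    rw [hq, ← D.psi_eq z₀ (Comp.not_inJ hz₀S), hz₀0]
  have hexitlam : ∀ v x, q < phi (π v) → ¬ q < phi (π x) → G.Adj v x →
      lam v = psi (q + 1) ∧ (lam v = 1 ∨ lam v = N) := by
    intro v x hv hx hvx
    obtain ⟨h1, h2, h3, h4⟩ := hexitH v x hv hx hvx
    have e1 := D.psi_eq v (Comp.not_inJ h1)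
    have e2 := D.psi_eq x (Comp.not_inJ h2)
    rw [h3] at e1
    rw [h4, hpsiq] at e2
    refine ⟨e1, ?_⟩
    have := D.zero x v hvx.symm e2
    have := hlam0 v hv
    omega
  refine ⟨{v | q < phi (π v)}, fun v => if psi (q + 1) = N then N - lam v else lam v - 1,
    fun v hv x hx h => ?_, fun v hv x hx h => ?_, Or.inl ⟨fun v hv => hlam0 v hv,
      fun v hv x hx h => ?_⟩, ?_⟩
  · have h1 := D.lip v x h (hlam0 v hv) (hlam0 x hx)
    have h2 := D.lip x v h.symm (hlam0 x hx) (hlam0 v hv)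
    have h3 := D.le v
    have h4 := D.le x
    dsimp only
    split_ifs <;> omega
  · obtain ⟨h1, h2⟩ := hexitlam v x hv hx h
    have h3 := D.le v
    dsimp only
    split_ifs <;> omega
  · have h1 := D.le v
    have h2 := D.le x
    have h3 := hlam0 v hv
    have h4 := hlam0 x hx
    dsimp only at h
    split_ifs at h <;> omega
  · right
    have hPstep : ∀ x ∈ Comp G lam m v₀, ∀ y ∈ Comp G lam m v₀, G.Adj x y → q < phi x →
        ¬ q < phi y → lam y = 0 := by
      intro x hx y hy hxy h1 h2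
      have := D.plip x y hxy (Comp.not_inJ hx)
      have h3 : phi y = q := by omega
      rw [D.psi_eq y (Comp.not_inJ hy), h3, hpsiq]
    rcases hlu with h | h
    · right
      intro j hj hjN
      obtain ⟨v, hv, hvq, hvj⟩ := cover_up D Comp.connIn (fun w hw => Comp.not_inJ hw)
        (fun v => q < phi v) hPstep huS (by omega) h hz₀S hz₀0 j hj hjN
      refine ⟨v, ?_, hvj⟩
      change q < phi (π v)
      rw [hπ1 v hv]
      exact hvq
    · left
      intro j hj hjN
      obtain ⟨v, hv, hvq, hvj⟩ := cover_down D Comp.connIn (fun w hw => Comp.not_inJ hw)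
        (fun v => q < phi v) hPstep huS (by omega) h hz₀S hz₀0 j hj hjN
      refine ⟨v, ?_, hvj⟩
      change q < phi (π v)
      rw [hπ1 v hv]
      exact hvq

/-- `π` is constant along walks avoiding `S`. -/
theorem pi_const {S : Set V} {π : V → V}
    (hπ2 : ∀ v w, G.Adj v w → π v = π w ∨ (v ∈ S ∧ w ∈ S)) {u v : V} (p : G.Walk u v)
    (hp : ∀ x ∈ p.support, x ∉ S) : π u = π v := by
  induction p with
  | nil => rfl
  | cons h p ih =>
    rw [← ih fun x hx => hp x (by rw [Walk.support_cons]; exact List.mem_cons_of_mem _ hx)]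
    rcases hπ2 _ _ h with h' | h'
    · exact h'
    · exact absurd h'.1 (hp _ (by simp))

theorem good [Finite V] (hG : G.IsTree) (D : Data G lam phi psi N m) : Good G lam phi N m := by
  classical
  have hm := D.hm
  have hmN := D.hN
  by_cases hz : ∃ v, lam v = 0
  swap
  · push Not at hz
    refine ⟨univ, lam, fun v _ w _ h => D.lip v w h (hz v) (hz w),
      fun v _ w hw => absurd (mem_univ w) hw, Or.inl ⟨fun v _ => hz v, fun v _ w _ h => h⟩,
      Or.inl rfl⟩
  have hJ0 : ∀ v, lam v = 0 → ¬ InJ m (lam v) := by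
    intro v hv
    unfold InJ
    omega
  obtain ⟨r⟩ := hG.connected.nonempty
  -- distance from `r` to the component
  have hd : ∀ v, lam v = 0 → ∃ w ∈ Comp G lam m v, ∀ x ∈ Comp G lam m v, G.dist r w ≤ G.dist r x := by
    intro v hv
    exact Set.exists_min_image (Comp G lam m v) (fun w => G.dist r w) (Set.toFinite _)
      ⟨v, Comp.self (hJ0 v hv)⟩
  let d : V → ℕ := fun v => sInf ((fun w => G.dist r w) '' Comp G lam m v)
  have hd1 : ∀ v, lam v = 0 → ∃ w ∈ Comp G lam m v, G.dist r w = d v := by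
    intro v hv
    have : ((fun w => G.dist r w) '' Comp G lam m v).Nonempty :=
      ⟨_, v, Comp.self (hJ0 v hv), rfl⟩
    obtain ⟨w, hw, hw'⟩ := Nat.sInf_mem this
    exact ⟨w, hw, hw'⟩
  have hd2 : ∀ v, ∀ x ∈ Comp G lam m v, d v ≤ G.dist r x := by
    intro v x hx
    exact Nat.sInf_le ⟨x, hx, rfl⟩
  obtain ⟨v₀, h0, hmax⟩ := Set.exists_max_image {v | lam v = 0} d (Set.toFinite _) hz
  have h0' : lam v₀ = 0 := h0
  have hv₀ : v₀ ∈ Comp G lam m v₀ := Comp.self (hJ0 v₀ h0)
  obtain ⟨za, hza, hza'⟩ := Set.exists_min_image (Comp G lam m v₀) phi (Set.toFinite _) ⟨v₀, hv₀⟩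
  obtain ⟨zb, hzb, hzb'⟩ := Set.exists_max_image (Comp G lam m v₀) phi (Set.toFinite _) ⟨v₀, hv₀⟩
  set a := phi za with ha
  set b := phi zb with hb
  by_cases hexa : ∀ u ∈ Comp G lam m v₀, ∀ w, w ∉ Comp G lam m v₀ → G.Adj u w → phi u = a
  · exact good_of_exits_a D hG.connected h0' hza' hexa
  by_cases hexb : ∀ u ∈ Comp G lam m v₀, ∀ w, w ∉ Comp G lam m v₀ → G.Adj u w → phi u = b
  · refine Good.of_reflect (good_of_exits_a D.reflect hG.connected h0' (a := -b)
      (fun z hz => ?_) (fun u hu w hw h => ?_))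
    · have := hzb' z hz
      omega
    · have := hexb u hu w hw h
      omega
  push Not at hexa hexb
  obtain ⟨u₁, hu₁, w₁, hw₁, hadj₁, hne₁⟩ := hexa
  obtain ⟨u₂, hu₂, w₂, hw₂, hadj₂, hne₂⟩ := hexb
  have hb₁ : phi u₁ = b := (exit_phi D ⟨za, hza, rfl⟩ hza' ⟨zb, hzb, rfl⟩ hzb' hu₁ hw₁
    hadj₁).resolve_left hne₁
  have ha₂ : phi u₂ = a := (exit_phi D ⟨za, hza, rfl⟩ hza' ⟨zb, hzb, rfl⟩ hzb' hu₂ hw₂
    hadj₂).resolve_right hne₂
  obtain ⟨π, hπS, hπ1, hπ2, hπ3⟩ := exists_retraction hG (Comp G lam m v₀) ⟨v₀, hv₀⟩ Comp.connIn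
  -- the key claim
  have key : (∀ v, v ∉ Comp G lam m v₀ → phi (π v) = b → lam v ≠ 0) ∨
      (∀ v, v ∉ Comp G lam m v₀ → phi (π v) = a → lam v ≠ 0) := by
    -- a component of a zero outside must have the same gate as `r`
    have hgate : ∀ v, v ∉ Comp G lam m v₀ → lam v = 0 → r ∉ Comp G lam m v₀ ∧ π v = π r := by
      intro v hv hv0
      obtain ⟨x₁, hx₁, hx₁d⟩ := hd1 v hv0
      have hle : d v ≤ d v₀ := hmax v hv0
      have hx₁S : x₁ ∉ Comp G lam m v₀ := fun h => hv (Comp.symm_trans hx₁ h)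
      have hπx₁ : π v = π x₁ := by
        obtain ⟨p, hp⟩ := hx₁
        refine pi_const hπ2 p fun x hx h => ?_
        exact hv (Comp.symm_trans (Comp.of_mem_support p hp hx) h)
      refine ⟨fun hr => ?_, ?_⟩
      · have h1 := hd2 v₀ r hr
        rw [SimpleGraph.dist_self] at h1
        have h2 : G.dist r x₁ = 0 := by omega
        rw [hG.connected.dist_eq_zero_iff] at h2
        exact hx₁S (h2 ▸ hr)
      · by_contra hne
        obtain ⟨p, hp⟩ := hG.connected.exists_walk_length_eq_dist r x₁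
        have hne' : x₁ ∉ {x | π x = π r} := fun h => hne (hπx₁.trans h)
        obtain ⟨e, he, he1, he2⟩ := p.exists_boundary_dart {x | π x = π r} rfl hne'
        have heS : e.fst ∈ Comp G lam m v₀ := by
          rcases hπ2 _ _ e.adj with h | h
          · exact absurd (h.symm.trans he1) he2
          · exact h.1
        have hsup := p.dart_fst_mem_support_of_mem_darts he
        have h1 := Walk.length_takeUntil_lt_length hsup (fun h => hx₁S (h ▸ heS))
        have h2 := SimpleGraph.dist_le (p.takeUntil _ hsup)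
        have h3 := hd2 v₀ _ heS
        omega
    have hab : a ≠ b := fun h => hne₁ (hb₁.trans h.symm)
    by_cases hrb : phi (π r) = b
    · right
      intro v hv hvb hv0
      obtain ⟨-, h2⟩ := hgate v hv hv0
      rw [h2, hrb] at hvb
      exact hab hvb.symm
    · left
      intro v hv hvb hv0
      obtain ⟨-, h2⟩ := hgate v hv hv0
      rw [h2] at hvb
      exact hrb hvb
  rcases key with key | key
  · exact good_of_side D h0' ⟨za, hza, rfl⟩ hza' ⟨zb, hzb, rfl⟩ hzb' hπS hπ1 hπ2 hπ3 key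
      ⟨u₁, hu₁, w₁, hw₁, hadj₁, hb₁⟩
  · refine Good.of_reflect (good_of_side D.reflect h0' (a := -b) (b := -a) ⟨zb, hzb, by omega⟩
      (fun z hz => ?_) ⟨za, hza, by omega⟩ (fun z hz => ?_) hπS hπ1 hπ2 hπ3 (fun v hv h => ?_)
      ⟨u₂, hu₂, w₂, hw₂, hadj₂, by omega⟩)
    · have := hzb' z hz
      omega
    · have := hza' z hz
      omega
    · exact key v hv (by omega)

end Main

end Pool.Agent.Lib.MP_385b3e_gt
end

section

set_option autoImplicit false

namespace Pool.Agent.Lib.MP_385b3e_gt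

open Set Metric Filter Topology

variable {X : Type*} [MetricSpace X] [CompactSpace X]

theorem bdd (s : Set X) : Bornology.IsBounded s := isBounded_of_compactSpace

theorem dist_le_diam {s : Set X} {x y : X} (hx : x ∈ s) (hy : y ∈ s) : dist x y ≤ diam s :=
  dist_le_diam_of_mem (bdd s) hx hy

theorem diam_mono' {s t : Set X} (h : s ⊆ t) : diam s ≤ diam t := diam_mono h (bdd t)

/-- Every proper subcontinuum is chainable (in the form of the frozen statement). -/
def ChainHyp (X : Type*) [MetricSpace X] : Prop :=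
  ∀ K : Set X, IsClosed K → IsConnected K → K ≠ Set.univ →
      ∀ ε : ℝ, ε > 0 → ∃ (n : ℕ) (U : Fin n → Set X),
        (∀ i, IsOpen (U i)) ∧ (∀ i, Metric.diam (U i ∩ K) < ε) ∧ K ⊆ (⋃ i, U i) ∧
        (∀ i j : Fin n, (U i ∩ U j ∩ K).Nonempty ↔
          ((i : ℕ) ≤ (j : ℕ) + 1 ∧ (j : ℕ) ≤ (i : ℕ) + 1))

/-- `F` is covered by a finite sequence of small open sets in which only consecutive members may
meet. -/
def WC (F : Set X) (η : ℝ) : Prop :=
  ∃ (n : ℕ) (w : ℕ → Set X), (∀ i, IsOpen (w i)) ∧ (∀ i, diam (w i) < η) ∧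
    (∀ i, n ≤ i → w i = ∅) ∧ F ⊆ ⋃ i, w i ∧ ∀ i j, i + 1 < j → Disjoint (w i) (w j)

theorem WC.mono {F F' : Set X} {η : ℝ} (h : WC F η) (hF : F' ⊆ F) : WC F' η := by
  obtain ⟨n, w, h1, h2, h3, h4, h5⟩ := h
  exact ⟨n, w, h1, h2, h3, hF.trans h4, h5⟩

theorem WC.mono_eta {F : Set X} {η η' : ℝ} (h : WC F η) (hF : η ≤ η') : WC F η' := by
  obtain ⟨n, w, h1, h2, h3, h4, h5⟩ := h
  exact ⟨n, w, h1, fun i => (h2 i).trans_le hF, h3, h4, h5⟩

theorem WC.empty {η : ℝ} (hη : 0 < η) : WC (∅ : Set X) η :=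
  ⟨0, fun _ => ∅, fun _ => isOpen_empty, fun _ => by simpa using hη, fun _ _ => rfl,
    empty_subset _, fun _ _ _ => disjoint_empty _⟩

theorem WC.union {Q₁ Q₂ : Set X} {η : ℝ} (h₁ : WC Q₁ η) (h₂ : WC Q₂ η) (hc₁ : IsClosed Q₁)
    (hc₂ : IsClosed Q₂) (hd : Disjoint Q₁ Q₂) : WC (Q₁ ∪ Q₂) η := by
  obtain ⟨n₁, w₁, a1, a2, a3, a4, a5⟩ := h₁
  obtain ⟨n₂, w₂, b1, b2, b3, b4, b5⟩ := h₂
  obtain ⟨δ, hδ, hdis⟩ := hd.exists_thickenings hc₁.isCompact hc₂
  refine ⟨n₁ + n₂, fun i => if i < n₁ then w₁ i ∩ thickening δ Q₁ else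
    w₂ (i - n₁) ∩ thickening δ Q₂, fun i => ?_, fun i => ?_, fun i hi => ?_, ?_, fun i j hij => ?_⟩
  · dsimp only
    split_ifs
    · exact (a1 i).inter isOpen_thickening
    · exact (b1 _).inter isOpen_thickening
  · dsimp only
    split_ifs
    · exact (diam_mono' inter_subset_left).trans_lt (a2 i)
    · exact (diam_mono' inter_subset_left).trans_lt (b2 _)
  · dsimp only
    rw [if_neg (by omega), b3 _ (by omega), empty_inter]
  · rintro x (hx | hx)
    · obtain ⟨i, hi⟩ := mem_iUnion.1 (a4 hx)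
      have hin : i < n₁ := by
        by_contra h
        rw [a3 i (not_lt.1 h)] at hi
        exact hi
      refine mem_iUnion.2 ⟨i, ?_⟩
      rw [if_pos hin]
      exact ⟨hi, self_subset_thickening hδ _ hx⟩
    · obtain ⟨i, hi⟩ := mem_iUnion.1 (b4 hx)
      refine mem_iUnion.2 ⟨n₁ + i, ?_⟩
      rw [if_neg (by omega), Nat.add_sub_cancel_left]
      exact ⟨hi, self_subset_thickening hδ _ hx⟩
  · dsimp only
    split_ifs with h1 h2 h2
    · exact (a5 i j hij).mono inter_subset_left inter_subset_left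
    · exact hdis.mono inter_subset_right inter_subset_right
    · omega
    · exact (b5 _ _ (by omega)).mono inter_subset_left inter_subset_left

/-- Thickening of a chain cover. -/
theorem wc_of_chainHyp (hX : ChainHyp X) {K : Set X} (hK : IsClosed K) (hKc : IsConnected K)
    (hKu : K ≠ univ) {η : ℝ} (hη : 0 < η) : WC K η := by
  obtain ⟨n, U, h1, h2, h3, h4⟩ := hX K hK hKc hKu η hη
  obtain ⟨v, v1, v2, v3⟩ := exists_subset_iUnion_closed_subset hK h1
    (fun x _ => Set.toFinite _) h3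
  have hk : ∀ i, IsCompact (v i ∩ K) := fun i => ((v2 i).inter hK).isCompact
  have hkd : ∀ i, diam (v i ∩ K) < η := fun i =>
    (diam_mono' (inter_subset_inter_left K (v3 i))).trans_lt (h2 i)
  have e1 : ∀ᶠ δ : ℝ in 𝓝[>] 0, ∀ i, diam (v i ∩ K) + 2 * δ < η := by
    rw [eventually_all]
    intro i
    have : Tendsto (fun δ : ℝ => diam (v i ∩ K) + 2 * δ) (𝓝[>] 0) (𝓝 (diam (v i ∩ K) + 2 * 0)) := by
      apply Tendsto.mono_left _ nhdsWithin_le_nhds
      exact (continuous_const.add (continuous_const.mul continuous_id)).tendsto 0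
    rw [mul_zero, add_zero] at this
    exact this.eventually_lt_const (hkd i)
  have e2 : ∀ᶠ δ : ℝ in 𝓝[>] 0, ∀ i j : Fin n, (i : ℕ) + 1 < j →
      Disjoint (thickening δ (v i ∩ K)) (thickening δ (v j ∩ K)) := by
    rw [eventually_all]
    intro i
    rw [eventually_all]
    intro j
    by_cases hij : (i : ℕ) + 1 < j
    · have hd : Disjoint (v i ∩ K) (v j ∩ K) := by
        rw [Set.disjoint_left]
        rintro x ⟨hx1, hx2⟩ ⟨hx3, -⟩
        have := (h4 i j).1 ⟨x, ⟨v3 i hx1, v3 j hx3⟩, hx2⟩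
        omega
      obtain ⟨δ, hδ, hdis⟩ := hd.exists_thickenings (hk i) ((v2 j).inter hK)
      filter_upwards [Ioo_mem_nhdsGT hδ] with δ' hδ' _
      exact hdis.mono (thickening_mono hδ'.2.le _) (thickening_mono hδ'.2.le _)
    · exact Eventually.of_forall fun δ h => absurd h hij
  obtain ⟨δ, ⟨hδ1, hδ2⟩, hδ0⟩ := ((e1.and e2).and self_mem_nhdsWithin).exists
  have hδ0' : 0 < δ := hδ0
  refine ⟨n, fun i => if h : i < n then thickening δ (v ⟨i, h⟩ ∩ K) else ∅, fun i => ?_,
    fun i => ?_, fun i hi => ?_, fun x hx => ?_, fun i j hij => ?_⟩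
  · dsimp only
    split_ifs
    · exact isOpen_thickening
    · exact isOpen_empty
  · dsimp only
    split_ifs
    · exact (diam_thickening_le _ hδ0'.le).trans_lt (hδ1 _)
    · simpa using hη
  · dsimp only
    rw [dif_neg (by omega)]
  · obtain ⟨i, hi⟩ := mem_iUnion.1 (v1 hx)
    refine mem_iUnion.2 ⟨i, ?_⟩
    rw [dif_pos i.2]
    exact self_subset_thickening hδ0' _ ⟨hi, hx⟩
  · dsimp only
    split_ifs with h1 h2
    · exact hδ2 ⟨i, h1⟩ ⟨j, h2⟩ hij
    · exact disjoint_empty _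
    · exact empty_disjoint _
    · exact empty_disjoint _

/-- Components of closed sets are closed. -/
theorem isClosed_compIn {F : Set X} (hF : IsClosed F) (x : X) :
    IsClosed (connectedComponentIn F x) := by
  by_cases hx : x ∈ F
  · rw [connectedComponentIn_eq_image hx]
    exact hF.isClosedEmbedding_subtypeVal.isClosedMap _ isClosed_connectedComponent
  · rw [connectedComponentIn_eq_empty hx]
    exact isClosed_empty

/-- Components of closed sets have arbitrarily small relatively clopen neighbourhoods. -/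
theorem exists_clopen_nbhd {F : Set X} (hF : IsClosed F) {x : X} (hx : x ∈ F) {O : Set X}
    (hO : IsOpen O) (hsub : connectedComponentIn F x ⊆ O) :
    ∃ Q : Set X, IsClosed Q ∧ IsClosed (F \ Q) ∧ Q ⊆ F ∧ Q ⊆ O ∧ x ∈ Q ∧
      connectedComponentIn F x ⊆ Q := by
  haveI : CompactSpace F := isCompact_iff_compactSpace.1 hF.isCompact
  rw [connectedComponentIn_eq_image hx] at hsub ⊢
  let y : F := ⟨x, hx⟩
  have hsub' : connectedComponent y ⊆ Subtype.val ⁻¹' O := fun z hz => hsub ⟨z, hz, rfl⟩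
  have hO' : IsOpen (Subtype.val ⁻¹' O : Set F) := hO.preimage continuous_subtype_val
  have hempty : ((Subtype.val ⁻¹' O : Set F)ᶜ ∩
      ⋂ s : { s : Set F // IsClopen s ∧ y ∈ s }, (s : Set F)) = ∅ := by
    rw [← connectedComponent_eq_iInter_isClopen]
    rw [← disjoint_iff_inter_eq_empty, disjoint_compl_left_iff_subset]
    exact hsub'
  haveI : Nonempty { s : Set F // IsClopen s ∧ y ∈ s } := ⟨⟨univ, isClopen_univ, mem_univ _⟩⟩
  obtain ⟨s, hs⟩ := hO'.isClosed_compl.isCompact.elim_directed_family_closed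
    (fun s : { s : Set F // IsClopen s ∧ y ∈ s } => (s : Set F)) (fun s => s.2.1.1) hempty (by
      intro s t
      exact ⟨⟨s.1 ∩ t.1, s.2.1.inter t.2.1, s.2.2, t.2.2⟩, inter_subset_left, inter_subset_right⟩)
  have hcl := hF.isClosedEmbedding_subtypeVal.isClosedMap
  have hsO : (s : Set F) ⊆ Subtype.val ⁻¹' O := by
    rwa [← disjoint_iff_inter_eq_empty, disjoint_compl_left_iff_subset] at hs
  refine ⟨Subtype.val '' (s : Set F), hcl _ s.2.1.1, ?_, ?_, ?_, ⟨y, s.2.2, rfl⟩, ?_⟩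
  · have : F \ (Subtype.val '' (s : Set F)) = Subtype.val '' (s : Set F)ᶜ := by
      ext z
      constructor
      · rintro ⟨hz, hz'⟩
        exact ⟨⟨z, hz⟩, fun h => hz' ⟨_, h, rfl⟩, rfl⟩
      · rintro ⟨w, hw, rfl⟩
        refine ⟨w.2, ?_⟩
        rintro ⟨w', hw', h⟩
        rw [Subtype.val_injective h] at hw'
        exact hw hw'
    rw [this]
    exact hcl _ s.2.1.compl.1
  · rintro _ ⟨w, -, rfl⟩
    exact w.2
  · rintro _ ⟨w, hw, rfl⟩
    exact hsO hw
  · exact image_mono (s.2.1.connectedComponent_subset s.2.2)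

/-- Every proper closed subset has fine chain covers (with gaps). -/
theorem wc_closed (hX : ChainHyp X) {F : Set X} (hF : IsClosed F) (hFu : F ≠ univ) {η : ℝ}
    (hη : 0 < η) : WC F η := by
  have key : ∃ Q : Set X, IsClosed Q ∧ IsClosed (F \ Q) ∧ Q ⊆ F ∧ F ∩ F ⊆ Q ∧ WC Q η := by
    refine hF.isCompact.induction_on
      (p := fun S => ∃ Q : Set X, IsClosed Q ∧ IsClosed (F \ Q) ∧ Q ⊆ F ∧ S ∩ F ⊆ Q ∧ WC Q η)
      ?_ ?_ ?_ ?_
    · exact ⟨∅, isClosed_empty, by simpa using hF, empty_subset _, by simp, WC.empty hη⟩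
    · rintro S T hST ⟨Q, h1, h2, h3, h4, h5⟩
      exact ⟨Q, h1, h2, h3, (inter_subset_inter_left F hST).trans h4, h5⟩
    · rintro S T ⟨Q, h1, h2, h3, h4, h5⟩ ⟨R, k1, k2, k3, k4, k5⟩
      have e : Q ∪ (R ∩ (F \ Q)) = Q ∪ R := by
        ext x
        constructor
        · rintro (h | h)
          · exact Or.inl h
          · exact Or.inr h.1
        · rintro (h | h)
          · exact Or.inl h
          · by_cases hxQ : x ∈ Q
            · exact Or.inl hxQ
            · exact Or.inr ⟨h, k3 h, hxQ⟩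
      refine ⟨Q ∪ R, h1.union k1, ?_, union_subset h3 k3, ?_, ?_⟩
      · have : F \ (Q ∪ R) = (F \ Q) ∩ (F \ R) := by
          ext x
          simp only [Set.mem_sdiff, mem_union, not_or, mem_inter_iff]
          tauto
        rw [this]
        exact h2.inter k2
      · rw [union_inter_distrib_right]
        exact union_subset_union h4 k4
      · rw [← e]
        exact h5.union (k5.mono inter_subset_left) h1 (k1.inter h2)
          (Set.disjoint_left.2 fun x hx hx' => hx'.2.2 hx)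
    · intro x hx
      have hconn : IsConnected (connectedComponentIn F x) :=
        isConnected_connectedComponentIn_iff.2 hx
      have hne : connectedComponentIn F x ≠ univ := fun h =>
        hFu (univ_subset_iff.1 (h ▸ connectedComponentIn_subset F x))
      obtain ⟨n, w, h1, h2, h3, h4, h5⟩ := wc_of_chainHyp hX (isClosed_compIn hF x) hconn hne hη
      obtain ⟨Q, q1, q2, q3, q4, q5, -⟩ := exists_clopen_nbhd hF hx (isOpen_iUnion h1) h4
      refine ⟨Q, ?_, Q, q1, q2, q3, inter_subset_left, n, w, h1, h2, h3, q4, h5⟩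
      rw [mem_nhdsWithin]
      refine ⟨(F \ Q)ᶜ, q2.isOpen_compl, fun h => h.2 q5, fun z hz => ?_⟩
      by_contra hzQ
      exact hz.1 ⟨hz.2, hzQ⟩
  obtain ⟨Q, -, -, -, h, hQ⟩ := key
  rw [inter_self] at h
  exact hQ.mono h

/-- Boundary bumping: a proper subcontinuum is properly contained in another one. -/
theorem exists_larger [ConnectedSpace X] {K : Set X} (hK : IsClosed K) (hKc : IsConnected K)
    (hKu : K ≠ univ) : ∃ K' : Set X, IsClosed K' ∧ IsConnected K' ∧ K' ≠ univ ∧ K ⊆ K' ∧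
      ∃ x ∈ K', x ∉ K := by
  obtain ⟨x₀, hx₀⟩ := (ne_univ_iff_exists_notMem K).1 hKu
  obtain ⟨r, hr, hrK⟩ := hK.isCompact.exists_cthickening_subset_open
    (isOpen_compl_singleton (x := x₀)) (subset_compl_singleton_iff.2 hx₀)
  have hF : IsClosed (cthickening r K) := isClosed_cthickening
  have hFu : cthickening r K ≠ univ := fun h => (hrK (h ▸ mem_univ x₀ : x₀ ∈ cthickening r K)) rfl
  obtain ⟨b, hb⟩ := hKc.1
  have hbF : b ∈ cthickening r K := self_subset_cthickening K hb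
  have hKC : K ⊆ connectedComponentIn (cthickening r K) b :=
    hKc.2.subset_connectedComponentIn hb (self_subset_cthickening K)
  refine ⟨connectedComponentIn (cthickening r K) b, isClosed_compIn hF b,
    isConnected_connectedComponentIn_iff.2 hbF, fun h => hFu (univ_subset_iff.1
      (h ▸ connectedComponentIn_subset _ b)), hKC, ?_⟩
  by_contra hcon
  push Not at hcon
  obtain ⟨Q, q1, q2, q3, q4, q5, -⟩ := exists_clopen_nbhd hF hbF
    (isOpen_thickening (δ := r) (E := K))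
    (fun x hx => self_subset_thickening hr K (hcon x hx))
  have hQo : IsOpen Q := by
    have : Q = thickening r K ∩ (cthickening r K \ Q)ᶜ := by
      ext z
      constructor
      · intro hz
        exact ⟨q4 hz, fun h => h.2 hz⟩
      · rintro ⟨h1, h2⟩
        by_contra hz
        exact h2 ⟨thickening_subset_cthickening r K h1, hz⟩
    rw [this]
    exact isOpen_thickening.inter q2.isOpen_compl
  rcases isClopen_iff.1 (⟨q1, hQo⟩ : IsClopen Q) with h | h
  · exact (h ▸ q5 : b ∈ (∅ : Set X))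
  · exact hFu (univ_subset_iff.1 (h ▸ q3))

/-- Dense proper subcontinua. -/
theorem exists_dense [ConnectedSpace X] {B : Set X} (hB : IsClosed B) (hBc : IsConnected B)
    (hBu : B ≠ univ) {ε : ℝ} (hε : 0 < ε) : ∃ B' : Set X, IsClosed B' ∧ IsConnected B' ∧
      B' ≠ univ ∧ B ⊆ B' ∧ ∀ x, ∃ y ∈ B', dist x y < ε := by
  classical
  obtain ⟨t, -, ht⟩ := (isCompact_univ (X := X)).elim_nhds_subcover (fun x => ball x (ε / 2))
    (fun x _ => ball_mem_nhds x (half_pos hε))
  let P : Set X → Prop := fun B' => IsClosed B' ∧ IsConnected B' ∧ B' ≠ univ ∧ B ⊆ B'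
  let s : Set X → Finset X := fun B' => t.filter fun x => (ball x (ε / 2) ∩ B').Nonempty
  let T : Set ℕ := {k | ∃ B', P B' ∧ (s B').card = k}
  have hTne : T.Nonempty := ⟨_, B, ⟨hB, hBc, hBu, subset_rfl⟩, rfl⟩
  have hTb : BddAbove T := ⟨t.card, by
    rintro _ ⟨B', -, rfl⟩
    exact Finset.card_le_card (Finset.filter_subset _ _)⟩
  obtain ⟨B', hB', hcard⟩ := Nat.sSup_mem hTne hTb
  have hmax : ∀ B'', P B'' → (s B'').card ≤ (s B').card := fun B'' h => by
    rw [hcard]
    exact le_csSup hTb ⟨B'', h, rfl⟩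
  by_cases hall : ∀ x ∈ t, (ball x (ε / 2) ∩ B').Nonempty
  · refine ⟨B', hB'.1, hB'.2.1, hB'.2.2.1, hB'.2.2.2, fun x => ?_⟩
    obtain ⟨z, hz, hxz⟩ := mem_iUnion₂.1 (ht (mem_univ x))
    obtain ⟨y, hy, hyB⟩ := hall z hz
    refine ⟨y, hyB, ?_⟩
    rw [mem_ball] at hxz hy
    calc dist x y ≤ dist x z + dist z y := dist_triangle _ _ _
      _ = dist x z + dist y z := by rw [dist_comm z y]
      _ < ε / 2 + ε / 2 := add_lt_add hxz hy
      _ = ε := add_halves ε
  · exfalso
    push Not at hall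
    obtain ⟨x₀, hx₀t, hx₀⟩ := hall
    -- no proper subcontinuum containing `B'` comes near `x₀`
    have hfar : ∀ B'', IsClosed B'' → IsConnected B'' → B'' ≠ univ → B' ⊆ B'' →
        ¬ (ball x₀ (ε / 2) ∩ B'').Nonempty := by
      intro B'' h1 h2 h3 h4 h5
      have hlt : (s B').card < (s B'').card := by
        apply Finset.card_lt_card
        refine ⟨fun x hx => ?_, fun h => ?_⟩
        · rw [Finset.mem_filter] at hx ⊢
          exact ⟨hx.1, hx.2.mono (inter_subset_inter_right _ h4)⟩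
        · have : x₀ ∈ s B'' := Finset.mem_filter.2 ⟨hx₀t, h5⟩
          have := (Finset.mem_filter.1 (h this)).2
          rw [hx₀] at this
          exact not_nonempty_empty this
      exact absurd (hmax B'' ⟨h1, h2, h3, hB'.2.2.2.trans h4⟩) (not_le.2 hlt)
    let 𝒰 : Set (Set X) := {B'' | IsClosed B'' ∧ IsConnected B'' ∧ B'' ≠ univ ∧ B' ⊆ B''}
    obtain ⟨b, hb⟩ := hB'.2.1.1
    have hconn : IsConnected (closure (⋃₀ 𝒰)) := by
      refine ⟨?_, IsPreconnected.closure (isPreconnected_sUnion b 𝒰 (fun B'' h => h.2.2.2 hb)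
        (fun B'' h => h.2.1.2))⟩
      exact ⟨b, subset_closure ⟨B', ⟨hB'.1, hB'.2.1, hB'.2.2.1, subset_rfl⟩, hb⟩⟩
    have hx₀c : x₀ ∉ closure (⋃₀ 𝒰) := by
      rw [_root_.mem_closure_iff]
      push Not
      refine ⟨ball x₀ (ε / 2), isOpen_ball, mem_ball_self (half_pos hε), ?_⟩
      rw [eq_empty_iff_forall_notMem]
      rintro z ⟨hz, B'', hB'', hzB⟩
      exact hfar B'' hB''.1 hB''.2.1 hB''.2.2.1 hB''.2.2.2 ⟨z, hz, hzB⟩
    obtain ⟨K, k1, k2, k3, k4, x, hxK, hx⟩ := exists_larger isClosed_closure hconn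
      (fun h => hx₀c (h ▸ mem_univ x₀))
    refine hx (subset_closure ⟨K, ⟨k1, k2, k3, ?_⟩, hxK⟩)
    refine (Subset.trans ?_ subset_closure).trans k4
    exact fun z hz => ⟨B', ⟨hB'.1, hB'.2.1, hB'.2.2.1, subset_rfl⟩, hz⟩

end Pool.Agent.Lib.MP_385b3e_gt
end
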